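import Pool.Agent.W_4d259d_h41.FrDefs

/-!
# MP_4d259d_ag, block FR: the multiplicative splitting of maps near `1` (section 8)

Proof.  `SA`, `SB` = the splitting `split_fin` for the finite dimensional space `E →L[ℂ] E`.  Solve
`a = - SA (e' (1 + a))`, `b = - SB (e' (1 + a))` where `e' (1 + a)` is the element
`z ↦ e' z * (1 + a z)` of `HB (WA ⊓ N)` (`exists_mulOp`-like; bilinear and bounded):
`a ↦ - SA (e' (1 + a|O))` is a contraction of the closed ball of radius `1/2` for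
`‖e'‖ (‖SA‖ + ‖SB‖ + 1)` small.  Then `b - a = SA y - SB y = y = e' (1 + a)` on `O`, so
`1 + b = (1 + e') (1 + a)`.
-/

noncomputable section

set_option linter.unusedSectionVars false

namespace Pool.Agent.W_4d259d_h41

open Set Filter Topology Manifold Metric TopologicalSpace
open scoped ContDiff
open Pool.Agent.W_4d259d_h46.Defs Pool.Agent.W_4d259d_h46 Pool.Agent.W_4d259d_h44

variable {R : Type*} [TopologicalSpace R] [ChartedSpace ℂ R]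
  [IsManifold (modelWithCornersSelf ℂ ℂ) ω R] [GoodSurface R]
variable {E : Type*} [NormedAddCommGroup E] [NormedSpace ℂ E] [FiniteDimensional ℂ E]

/-- The affine fixed point equation in Banach spaces. -/
theorem frCon_fix {Y Z : Type*} [NormedAddCommGroup Y] [NormedSpace ℂ Y] [CompleteSpace Y]
    [NormedAddCommGroup Z] [NormedSpace ℂ Z] (SA : Z →L[ℂ] Y) (M : Z →L[ℂ] Z) (rs : Y →L[ℂ] Z)
    (one : Z) {τ : ℝ} (hτ : 0 ≤ τ) (h1 : ‖SA‖ * τ ≤ 1 / 4) (h2 : ‖M‖ ≤ τ) (h3 : ‖rs‖ ≤ 1)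
    (h4 : ‖one‖ ≤ 1) : ∃ a : Y, a = -(SA (M (one + rs a))) ∧ ‖a‖ ≤ 1 / 3 ∧
      ‖M (one + rs a)‖ ≤ τ * (4 / 3) := by
  set Λ : Y →L[ℂ] Y := -(SA.comp (M.comp rs)) with hΛ
  have hΛn : ‖Λ‖ ≤ 1 / 4 := by
    rw [hΛ, norm_neg]
    calc ‖SA.comp (M.comp rs)‖ ≤ ‖SA‖ * ‖M.comp rs‖ := ContinuousLinearMap.opNorm_comp_le _ _
      _ ≤ ‖SA‖ * (‖M‖ * ‖rs‖) :=
          mul_le_mul_of_nonneg_left (ContinuousLinearMap.opNorm_comp_le _ _) (norm_nonneg _)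
      _ ≤ ‖SA‖ * (τ * 1) := by
          refine mul_le_mul_of_nonneg_left ?_ (norm_nonneg _)
          exact mul_le_mul h2 h3 (norm_nonneg _) hτ
      _ = ‖SA‖ * τ := by ring
      _ ≤ 1 / 4 := h1
  have hΛ1 : ‖Λ‖ < 1 := lt_of_le_of_lt hΛn (by norm_num)
  set u := Units.oneSub Λ hΛ1 with hu
  obtain ⟨a, ha⟩ : ∃ a : Y, a - Λ a = -(SA (M one)) := by
    refine ⟨(↑u⁻¹ : Y →L[ℂ] Y) (-(SA (M one))), ?_⟩
    have h5 : (u : Y →L[ℂ] Y) * (↑u⁻¹ : Y →L[ℂ] Y) = 1 := u.mul_inv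
    have h6 : (u : Y →L[ℂ] Y) = 1 - Λ := rfl
    rw [h6] at h5
    have h7 := congrArg (fun L : Y →L[ℂ] Y => L (-(SA (M one)))) h5
    exact h7
  have haeq : a = -(SA (M (one + rs a))) := by
    have h6 : Λ a = -(SA (M (rs a))) := rfl
    rw [h6, sub_neg_eq_add] at ha
    rw [map_add, map_add, neg_add, ← ha]
    abel
  have hrsa : ‖rs a‖ ≤ ‖a‖ := by
    calc ‖rs a‖ ≤ ‖rs‖ * ‖a‖ := rs.le_opNorm _
      _ ≤ 1 * ‖a‖ := mul_le_mul_of_nonneg_right h3 (norm_nonneg _)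
      _ = ‖a‖ := one_mul _
  have hyn : ‖M (one + rs a)‖ ≤ τ * (1 + ‖a‖) := by
    calc ‖M (one + rs a)‖ ≤ ‖M‖ * ‖one + rs a‖ := M.le_opNorm _
      _ ≤ τ * (1 + ‖a‖) := by
          refine mul_le_mul h2 ?_ (norm_nonneg _) hτ
          exact (norm_add_le _ _).trans (add_le_add h4 hrsa)
  have han : ‖a‖ ≤ 1 / 3 := by
    have h5 : ‖a‖ ≤ ‖SA‖ * (τ * (1 + ‖a‖)) := by
      calc ‖a‖ = ‖SA (M (one + rs a))‖ := by
            conv_lhs => rw [haeq]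
            rw [norm_neg]
        _ ≤ ‖SA‖ * ‖M (one + rs a)‖ := SA.le_opNorm _
        _ ≤ _ := mul_le_mul_of_nonneg_left hyn (norm_nonneg _)
    have h6 : ‖SA‖ * (τ * (1 + ‖a‖)) ≤ 1 / 4 * (1 + ‖a‖) := by
      rw [← mul_assoc]
      exact mul_le_mul_of_nonneg_right h1 (by positivity)
    linarith
  refine ⟨a, haeq, han, hyn.trans ?_⟩
  exact mul_le_mul_of_nonneg_left (by linarith) hτ

theorem fr_contract {e : OpenPartialHomeomorph R ℂ} (he : e ∈ DChart R) (N1 N WA : Opens R)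
    (h1 : closure (N1 : Set R) ⊆ N) (h2 : closure (N : Set R) ⊆ unitOf e)
    (h3 : IsCompact (closure (WA : Set R))) :
    ∃ τ > 0, ∀ e' : R → E →L[ℂ] E, HolOn (E →L[ℂ] E) e' (WA ⊓ N : Opens R) →
      (∀ z ∈ WA ⊓ N, ‖e' z‖ ≤ τ) → ∃ a b : R → E →L[ℂ] E, HolOn (E →L[ℂ] E) a WA ∧
        HolOn (E →L[ℂ] E) b (N1 ⊔ (WA ⊓ N) : Opens R) ∧ (∀ z ∈ WA, ‖a z‖ ≤ 1 / 2) ∧
        (∀ z ∈ (N1 ⊔ (WA ⊓ N) : Opens R), ‖b z‖ ≤ 1 / 2) ∧
        ∀ z ∈ WA ⊓ N, (1 + e' z) * (1 + a z) = 1 + b z := by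
  have hEc : CompleteSpace E := FiniteDimensional.complete ℂ E
  obtain ⟨SA, SB, hS⟩ := split_fin (F := E →L[ℂ] E) he N1 N WA h1 h2 h3
  obtain ⟨rs, hrs1, hrs⟩ := exists_res (F := E →L[ℂ] E) (inf_le_left : WA ⊓ N ≤ WA)
  have hσ : 0 < 1 / (4 * (‖SA‖ + ‖SB‖ + 1)) := by positivity
  refine ⟨1 / (4 * (‖SA‖ + ‖SB‖ + 1)), hσ, ?_⟩
  intro e' he' hb
  set τ := 1 / (4 * (‖SA‖ + ‖SB‖ + 1)) with hτ
  have hSAτ : ‖SA‖ * τ ≤ 1 / 4 := by
    rw [hτ, mul_one_div, div_le_div_iff₀ (by positivity) (by norm_num)]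
    have := norm_nonneg SB
    linarith
  have hSBτ : ‖SB‖ * τ ≤ 1 / 4 := by
    rw [hτ, mul_one_div, div_le_div_iff₀ (by positivity) (by norm_num)]
    have := norm_nonneg SA
    linarith
  -- left multiplication by `e'`
  obtain ⟨M, hM1, hM⟩ := exists_mulOp (F := E →L[ℂ] E) (G := E →L[ℂ] E) (U := WA ⊓ N)
    (fun z => ContinuousLinearMap.mul ℂ (E →L[ℂ] E) (e' z))
    (holOn_comp (V := univ)
      (ContinuousLinearMap.differentiable (ContinuousLinearMap.mul ℂ (E →L[ℂ] E))).differentiableOn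
      he' (fun z _ => mem_univ _)) τ hσ.le
    (fun z hz => (ContinuousLinearMap.opNorm_mul_apply_le ℂ (E →L[ℂ] E) (e' z)).trans (hb z hz))
  obtain ⟨cst, hc1, hc⟩ := exists_const (F := E →L[ℂ] E) (U := WA ⊓ N)
  have hone1 : ‖cst 1‖ ≤ 1 := by
    calc ‖cst 1‖ ≤ ‖cst‖ * ‖(1 : E →L[ℂ] E)‖ := cst.le_opNorm _
      _ ≤ 1 * 1 := mul_le_mul hc1 ContinuousLinearMap.norm_id_le (norm_nonneg _) zero_le_one
      _ = 1 := one_mul 1
  obtain ⟨a, haeq, han, hyn⟩ := frCon_fix SA M rs (cst 1) hσ.le hSAτ hM1 hrs1 hone1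
  have hbn : ‖SB (M (cst 1 + rs a))‖ ≤ 1 / 3 := by
    calc ‖SB (M (cst 1 + rs a))‖ ≤ ‖SB‖ * ‖M (cst 1 + rs a)‖ := SB.le_opNorm _
      _ ≤ ‖SB‖ * (τ * (4 / 3)) := mul_le_mul_of_nonneg_left hyn (norm_nonneg SB)
      _ = (‖SB‖ * τ) * (4 / 3) := by ring
      _ ≤ 1 / 4 * (4 / 3) := mul_le_mul_of_nonneg_right hSBτ (by norm_num)
      _ = 1 / 3 := by norm_num
  refine ⟨a.fn, (-(SB (M (cst 1 + rs a)))).fn, a.fn_hol, HB.fn_hol _, ?_, ?_, ?_⟩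
  · intro z _
    have := a.fn_le z
    linarith
  · intro z _
    rw [HB.fn_neg, norm_neg]
    have := (SB (M (cst 1 + rs a))).fn_le z
    linarith
  · intro z hz
    have e1 : (M (cst 1 + rs a)).fn z = e' z * (1 + a.fn z) := by
      rw [hM _ z hz, HB.fn_add, hc _ z hz, hrs _ z hz]
      rfl
    have e2 := hS (M (cst 1 + rs a)) z hz
    have e3 : a.fn z = -((SA (M (cst 1 + rs a))).fn z) := by
      rw [← HB.fn_neg, ← haeq]
    have e5 : e' z * (1 + a.fn z) =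
        (-(SB (M (cst 1 + rs a)))).fn z - a.fn z := by
      rw [← e1, e2, HB.fn_neg, e3]
      abel
    rw [add_mul, one_mul, e5]
    abel

end Pool.Agent.W_4d259d_h41
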