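import Pool.Agent.W_4d259d_h44.ApiD
import Pool.Agent.W_4d259d_h44.Iface

/-!
# MP_4d259d_ag, block FR (frames and sprays): basic notions
-/

noncomputable section

set_option linter.unusedSectionVars false

namespace Pool.Agent.W_4d259d_h41

open Set Filter Topology Manifold Metric TopologicalSpace
open scoped ContDiff
open Pool.Agent.W_4d259d_h46.Defs Pool.Agent.W_4d259d_h46 Pool.Agent.W_4d259d_h44

variable {R : Type*} [TopologicalSpace R] [ChartedSpace ℂ R]

/-- `q` is holomorphic on `Y`, its only zero on `Y` is `p`, and it is simple. -/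
structure OneZero (Y : Set R) (p : R) (q : R → ℂ) : Prop where
  hol : HolOn ℂ q Y
  only : ∀ z ∈ Y, q z = 0 → z = p
  simple : SimpleZero q p

/-- Simultaneous functions with one simple zero at the points of a finite set. -/
theorem exists_zeros [GoodSurface R] {K : Set R} (hK : IsCompact K) {B : Set R} (hB : B.Finite)
    (hBK : B ⊆ K) : ∃ Y : Opens R, K ⊆ Y ∧ ∃ q : R → R → ℂ, ∀ p ∈ B, OneZero (Y : Set R) p (q p) := by
  classical
  have h := fun p : B => GoodSurface.zero K hK p.1 (hBK p.2)
  choose W hW q hq using h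
  have : Finite B := hB
  have : Fintype B := Fintype.ofFinite B
  refine ⟨⟨⋂ p : B, (W p : Set R), isOpen_iInter_of_finite fun p => (W p).isOpen⟩, ?_, ?_⟩
  · exact subset_iInter hW
  · refine ⟨fun p z => if hp : p ∈ B then q ⟨p, hp⟩ z else 0, ?_⟩
    intro p hp
    have h1 : (fun z => if hp : p ∈ B then q ⟨p, hp⟩ z else 0) = q ⟨p, hp⟩ := by
      funext z; simp [hp]
    have hsub : ((⟨⋂ p : B, (W p : Set R), isOpen_iInter_of_finite fun p => (W p).isOpen⟩ :
        Opens R) : Set R) ⊆ W ⟨p, hp⟩ := iInter_subset _ _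
    refine ⟨?_, ?_, ?_⟩
    · simp only [h1]
      exact (hq ⟨p, hp⟩).1.mono hsub
    · intro z hz
      simp only [hp, dif_pos]
      exact (hq ⟨p, hp⟩).2.1 z (hsub hz)
    · simp only [h1]
      exact (hq ⟨p, hp⟩).2.2

end Pool.Agent.W_4d259d_h41
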