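import Pool.Agent.W_4d259d_h41.FrDefs

/-!
# MP_4d259d_ag, block FR: factorisation of a polynomial in a chart (section 8)

Proof of `fr_poly`.  One factor: for `w ∈ ℂ` the function `e z - w` on `V` is either without zeros
on `V`, or has a zero `p ∈ V` (then `w = e p`, `p ∈ B` if `w` is a root of `d`, and `p` is its only
zero, `e` being injective); in the second case `q p z / (e z - e p)` and its inverse are
holomorphic on `V`: by `exists_div` (ApiB) applied twice, `q p z = (e z - e p) • g z` and
`e z - e p = q p z • h z` on `V` (both functions have a simple zero at `p` only, and both vanish at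
`p`); then `g z * h z = 1` for `z ≠ p` and at `p` by continuity, so `h` has no zeros.  Then
`d = c ∏ (X - w_i)` over the roots (`ℂ` algebraically closed), induction on the multiset of roots.
-/

noncomputable section

set_option linter.unusedSectionVars false

namespace Pool.Agent.W_4d259d_h41

open Set Filter Topology Manifold Metric TopologicalSpace
open scoped ContDiff
open Pool.Agent.W_4d259d_h46.Defs Pool.Agent.W_4d259d_h46 Pool.Agent.W_4d259d_h44

variable {R : Type*} [TopologicalSpace R] [ChartedSpace ℂ R]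
  [IsManifold (modelWithCornersSelf ℂ ℂ) ω R]

theorem fr_factor {e : OpenPartialHomeomorph R ℂ} (he : e ∈ RChart R) {V : Opens R}
    (hVe : (V : Set R) ⊆ e.source) {p : R} (hp : p ∈ V) {q : R → ℂ}
    (hq : OneZero (V : Set R) p q) :
    ∃ h : R → ℂ, HolOn ℂ h V ∧ (∀ z ∈ V, h z ≠ 0) ∧ ∀ z ∈ V, e z - e p = h z * q z := by
  have hpe : p ∈ e.source := hVe hp
  have himg : e '' (V : Set R) ∈ 𝓝 (e p) := by
    have : IsOpen (e '' (V : Set R)) := e.isOpen_image_of_subset_source V.isOpen hVe
    exact this.mem_nhds (mem_image_of_mem _ hp)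
  set qe : ℂ → ℂ := fun ζ => q (e.symm ζ) with hqe
  have hqd : DifferentiableOn ℂ qe (e '' (V : Set R)) :=
    (holOn_iff_inChart he V.isOpen hVe).1 hq.hol
  have hqd' : DifferentiableOn ℂ (dslope qe (e p)) (e '' (V : Set R)) :=
    (Complex.differentiableOn_dslope himg).2 hqd
  have hqp : qe (e p) = 0 := by
    rw [hqe]
    change q (e.symm (e p)) = 0
    rw [e.left_inv hpe]
    exact hq.simple.1
  have hqw : ∀ w ∈ V, w ≠ p → dslope qe (e p) (e w) = (e w - e p)⁻¹ * q w := by
    intro w hw hne
    have hne' : e w ≠ e p := fun hc => hne (e.injOn (hVe hw) hpe hc)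
    rw [dslope_of_ne _ hne', slope_def_module, hqp, sub_zero, hqe]
    change (e w - e p)⁻¹ • q (e.symm (e w)) = _
    rw [e.left_inv (hVe hw), smul_eq_mul]
  have hκ : HolOn ℂ (fun z => dslope qe (e p) (e z)) V :=
    holOn_comp hqd' ((chart_hol he).mono hVe) (fun z hz => mem_image_of_mem _ hz)
  have hne : ∀ z ∈ V, dslope qe (e p) (e z) ≠ 0 := by
    intro z hz
    by_cases hzp : z = p
    · subst hzp
      rw [dslope_same]
      exact hq.simple.2 e he hpe
    · have hne' : e z - e p ≠ 0 := sub_ne_zero.2 fun hc => hzp (e.injOn (hVe hz) hpe hc)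
      have hqz : q z ≠ 0 := fun hc => hzp (hq.only z hz hc)
      rw [hqw z hz hzp]
      exact mul_ne_zero (inv_ne_zero hne') hqz
  refine ⟨fun z => (dslope qe (e p) (e z))⁻¹, holOn_inv hκ hne, fun z hz => inv_ne_zero (hne z hz),
    ?_⟩
  intro z hz
  by_cases hzp : z = p
  · subst hzp
    rw [sub_self, hq.simple.1, mul_zero]
  · have hne' : e z - e p ≠ 0 := sub_ne_zero.2 fun hc => hzp (e.injOn (hVe hz) hpe hc)
    have hqz : q z ≠ 0 := fun hc => hzp (hq.only z hz hc)
    change _ = (dslope qe (e p) (e z))⁻¹ * q z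
    rw [hqw z hz hzp]
    field_simp

theorem fr_poly {e : OpenPartialHomeomorph R ℂ} (he : e ∈ RChart R) {Y V : Opens R}
    (hVY : V ≤ Y) (hVe : (V : Set R) ⊆ e.source) {B : Set R} (hBV : B ⊆ V) {q : R → R → ℂ}
    (hq : ∀ p ∈ B, OneZero (Y : Set R) p (q p)) (d : Polynomial ℂ) (hd : d ≠ 0)
    (hroot : ∀ z ∈ V, d.eval (e z) = 0 → z ∈ B) :
    ∃ (L : List R) (u : R → ℂ), (∀ p ∈ L, p ∈ B) ∧ HolOn ℂ u V ∧ (∀ z ∈ V, u z ≠ 0) ∧
      ∀ z ∈ V, d.eval (e z) = u z * (L.map fun p => q p z).prod := by
  induction hn : d.natDegree generalizing d with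
  | zero =>
    have h1 := Polynomial.eq_C_of_natDegree_eq_zero hn
    have h2 : d.coeff 0 ≠ 0 := fun h => hd (by rw [h1, h, Polynomial.C_0])
    refine ⟨[], fun _ => d.coeff 0, by simp, holOn_const _ _, fun _ _ => h2, ?_⟩
    intro z _
    rw [h1]
    simp
  | succ n ih =>
    obtain ⟨w, hw⟩ := IsAlgClosed.exists_root d (by
      rw [Polynomial.degree_eq_natDegree hd, hn]
      exact_mod_cast Nat.succ_ne_zero n)
    obtain ⟨d', hd'⟩ := Polynomial.dvd_iff_isRoot.2 hw
    have hd'0 : d' ≠ 0 := fun h => hd (by rw [hd', h, mul_zero])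
    have hdeg : d'.natDegree = n := by
      rw [hd', Polynomial.natDegree_mul (Polynomial.X_sub_C_ne_zero w) hd'0,
        Polynomial.natDegree_X_sub_C] at hn
      omega
    have hev : ∀ z, d.eval (e z) = (e z - w) * d'.eval (e z) := by
      intro z
      rw [hd']
      simp
    obtain ⟨L, u, hL, hu, hu0, hLu⟩ := ih d' hd'0 (fun z hz h => hroot z hz (by
      rw [hev, h, mul_zero])) hdeg
    by_cases hex : ∃ p ∈ V, e p = w
    · obtain ⟨p, hpV, hpw⟩ := hex
      have hpB : p ∈ B := hroot p hpV (by rw [hev, hpw, sub_self, zero_mul])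
      have h1 : OneZero (V : Set R) p (q p) :=
        ⟨(hq p hpB).hol.mono hVY, fun z hz h => (hq p hpB).only z (hVY hz) h, (hq p hpB).simple⟩
      obtain ⟨h, hh, hh0, heq⟩ := fr_factor he hVe hpV h1
      refine ⟨p :: L, fun z => h z * u z, ?_, holOn_mul hh hu,
        fun z hz => mul_ne_zero (hh0 z hz) (hu0 z hz), ?_⟩
      · intro p' hp'
        rcases List.mem_cons.1 hp' with h2 | h2
        · rw [h2]; exact hpB
        · exact hL p' h2
      · intro z hz
        rw [hev, hLu z hz, ← hpw, heq z hz, List.map_cons, List.prod_cons]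
        ring
    · push Not at hex
      refine ⟨L, fun z => (e z - w) * u z, hL, holOn_mul (holOn_sub ((chart_hol he).mono hVe)
        (holOn_const _ _)) hu, fun z hz => mul_ne_zero (sub_ne_zero.2 (hex z hz)) (hu0 z hz), ?_⟩
      intro z hz
      rw [hev, hLu z hz]
      ring

end Pool.Agent.W_4d259d_h41
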