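import Pool.Agent.W_4d259d_h46.PlRat

/-!
# MP_4d259d_ag, block FR: rational approximation of an invertible operator valued map, with
polynomial adjugate (sections 7, 8)

Proof.  `‖G ζ⁻¹‖ ≤ C0` on the compact `C`.  Let `τ' > 0` be small (`τ' C0 ≤ 1/2`, `2 C0 τ' ≤ τ`) and
`r ζ = ∑ w ∈ s, (ζ - w)⁻¹ • c w`, `s` disjoint from `C`, `‖G - r‖ ≤ τ'` on `C` (`rat_approx`).  Then
`r ζ` is invertible on `C`, `‖r⁻¹‖ ≤ 2 C0`, `‖r⁻¹ G - 1‖ ≤ ‖r⁻¹‖ ‖G - r‖ ≤ τ`.  `ρ = ∏ (X - w)`,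
`P ζ = ρ(ζ) • r ζ = ∑ w, (∏_{w' ≠ w} (ζ - w')) • c w` (polynomial in `ζ`); in a basis of `E`, `P` is a
matrix over `ℂ[X]`, `A` = its adjugate, `d` = its determinant; `P A = A P = d`.  On `C`:
`ρ ≠ 0`, `P ζ = ρ(ζ) r ζ` is invertible, so `d(ζ) = det (P ζ) ≠ 0`; `C` nonempty gives `d ≠ 0`, and
`(P ζ)⁻¹ = d(ζ)⁻¹ A ζ`, `r⁻¹ G = ρ(ζ) d(ζ)⁻¹ A ζ G ζ`.
-/

noncomputable section

namespace Pool.Agent.W_4d259d_h41

open Set Filter Topology Metric

variable {E : Type*} [NormedAddCommGroup E] [NormedSpace ℂ E] [FiniteDimensional ℂ E]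

/-- Endomorphisms are matrices. -/
private noncomputable def frPsi (E : Type*) [NormedAddCommGroup E] [NormedSpace ℂ E]
    [FiniteDimensional ℂ E] :
    Matrix (Fin (Module.finrank ℂ E)) (Fin (Module.finrank ℂ E)) ℂ ≃ₐ[ℂ] (E →L[ℂ] E) :=
  (Matrix.toLinAlgEquiv (Module.finBasis ℂ E)).trans (Module.End.toContinuousLinearMap E)

/-- A polynomial family of matrices gives an entire family of operators. -/
private theorem frPsi_differentiable
    (M : Matrix (Fin (Module.finrank ℂ E)) (Fin (Module.finrank ℂ E)) (Polynomial ℂ)) :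
    Differentiable ℂ fun ζ : ℂ => frPsi E ((Polynomial.evalRingHom ζ).mapMatrix M) := by
  have h1 : (fun ζ : ℂ => frPsi E ((Polynomial.evalRingHom ζ).mapMatrix M)) =
      fun ζ => ∑ i, ∑ j, (M i j).eval ζ • frPsi E (Matrix.single i j 1) := by
    funext ζ
    conv_lhs => rw [Matrix.matrix_eq_sum_single ((Polynomial.evalRingHom ζ).mapMatrix M)]
    rw [map_sum]
    refine Finset.sum_congr rfl fun i _ => ?_
    rw [map_sum]
    refine Finset.sum_congr rfl fun j _ => ?_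
    rw [← map_smul]
    congr 1
    rw [Matrix.smul_single, smul_eq_mul, mul_one]
    rfl
  rw [h1]
  refine Differentiable.fun_sum fun i _ => Differentiable.fun_sum fun j _ => ?_
  exact (M i j).differentiable.smul_const _

/-- Perturbation of the inverse. -/
private theorem fr_pert (R G r Gi : E →L[ℂ] E) (hRr : R * r = 1) (hG : G * Gi = 1) {q : ℝ}
    (hq0 : 0 ≤ q) (hq : q ≤ 1 / 2) (h : ‖Gi * (G - r)‖ ≤ q) : ‖R * G - 1‖ ≤ 2 * q := by
  have h1 : R * G - 1 = (R * G - 1 + 1) * (Gi * (G - r)) := by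
    calc R * G - 1 = R * G - R * r := by rw [hRr]
      _ = R * ((G * Gi) * (G - r)) := by rw [hG]; noncomm_ring
      _ = _ := by noncomm_ring
  have h2 : ‖R * G - 1‖ ≤ (‖R * G - 1‖ + 1) * q := by
    calc ‖R * G - 1‖ = ‖(R * G - 1 + 1) * (Gi * (G - r))‖ := by rw [← h1]
      _ ≤ ‖R * G - 1 + 1‖ * ‖Gi * (G - r)‖ := norm_mul_le _ _
      _ ≤ (‖R * G - 1‖ + 1) * q := by
          refine mul_le_mul ?_ h (norm_nonneg _) (by positivity)
          refine (norm_add_le _ _).trans ?_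
          have : ‖(1 : E →L[ℂ] E)‖ ≤ 1 := ContinuousLinearMap.norm_id_le
          linarith
  have h3 := norm_nonneg (R * G - 1)
  nlinarith

theorem fr_rat {C U : Set ℂ} (hC : IsCompact C) (hne : C.Nonempty) (hU : IsOpen U) (hCU : C ⊆ U)
    {G : ℂ → E →L[ℂ] E} (hG : DifferentiableOn ℂ G U) (hunit : ∀ z ∈ C, IsUnit (G z)) {τ : ℝ}
    (hτ : 0 < τ) :
    ∃ (ρ d : Polynomial ℂ) (P A : ℂ → E →L[ℂ] E), ρ ≠ 0 ∧ d ≠ 0 ∧ Differentiable ℂ P ∧
      Differentiable ℂ A ∧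
      (∀ ζ, P ζ * A ζ = d.eval ζ • (1 : E →L[ℂ] E) ∧ A ζ * P ζ = d.eval ζ • (1 : E →L[ℂ] E)) ∧
      ∀ ζ ∈ C, ρ.eval ζ ≠ 0 ∧ d.eval ζ ≠ 0 ∧
        ‖(ρ.eval ζ * (d.eval ζ)⁻¹) • (A ζ * G ζ) - 1‖ ≤ τ := by
  classical
  have hcomp : CompleteSpace E := FiniteDimensional.complete ℂ E
  -- the inverses are bounded
  have hinvc : ContinuousOn (fun z => Ring.inverse (G z)) C := by
    intro z hz
    obtain ⟨u, hu⟩ := hunit z hz
    have h1 : ContinuousAt G z := (hG.differentiableAt (hU.mem_nhds (hCU hz))).continuousAt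
    have h2 : ContinuousAt (Ring.inverse : (E →L[ℂ] E) → (E →L[ℂ] E)) (G z) := by
      rw [← hu]
      exact NormedRing.inverse_continuousAt u
    exact (ContinuousAt.comp (g := Ring.inverse) h2 h1).continuousWithinAt
  obtain ⟨C0, hC0⟩ := hC.exists_bound_of_continuousOn hinvc
  obtain ⟨z0, hz0⟩ := hne
  have hC00 : 0 ≤ C0 := (norm_nonneg _).trans (hC0 z0 hz0)
  obtain ⟨τ', hτ', hτ1, hτ2⟩ : ∃ τ' : ℝ, 0 < τ' ∧ C0 * τ' ≤ 1 / 4 ∧ 2 * (C0 * τ') ≤ τ := by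
    refine ⟨min (1 / 4 / (C0 + 1)) (τ / 2 / (C0 + 1)), by positivity, ?_, ?_⟩
    · calc C0 * min (1 / 4 / (C0 + 1)) (τ / 2 / (C0 + 1)) ≤ C0 * (1 / 4 / (C0 + 1)) :=
            mul_le_mul_of_nonneg_left (min_le_left _ _) hC00
        _ ≤ (C0 + 1) * (1 / 4 / (C0 + 1)) :=
            mul_le_mul_of_nonneg_right (by linarith) (by positivity)
        _ = 1 / 4 := by field_simp
    · have h1 : C0 * min (1 / 4 / (C0 + 1)) (τ / 2 / (C0 + 1)) ≤ τ / 2 := by
        calc C0 * min (1 / 4 / (C0 + 1)) (τ / 2 / (C0 + 1)) ≤ C0 * (τ / 2 / (C0 + 1)) :=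
              mul_le_mul_of_nonneg_left (min_le_right _ _) hC00
          _ ≤ (C0 + 1) * (τ / 2 / (C0 + 1)) :=
              mul_le_mul_of_nonneg_right (by linarith) (by positivity)
          _ = τ / 2 := by field_simp
      linarith
  obtain ⟨s, c, hsC, hsum⟩ := W_4d259d_h46.Pl.rat_approx hC hU hCU hG hτ'
  -- the polynomials
  obtain ⟨q, hq⟩ : ∃ q : ℂ → Polynomial ℂ,
      q = fun w => ∏ w' ∈ s.erase w, (Polynomial.X - Polynomial.C w') := ⟨_, rfl⟩
  obtain ⟨ρ, hρ⟩ : ∃ ρ : Polynomial ℂ, ρ = ∏ w ∈ s, (Polynomial.X - Polynomial.C w) := ⟨_, rfl⟩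
  have hρq : ∀ w ∈ s, ρ = (Polynomial.X - Polynomial.C w) * q w := by
    intro w hw
    rw [hρ, hq]
    exact (Finset.mul_prod_erase s (fun w => Polynomial.X - Polynomial.C w) hw).symm
  have hρ0 : ρ ≠ 0 := by
    rw [hρ]
    exact Finset.prod_ne_zero_iff.2 fun w _ => Polynomial.X_sub_C_ne_zero w
  have hρe : ∀ ζ, ρ.eval ζ = ∏ w ∈ s, (ζ - w) := by
    intro ζ
    rw [hρ, Polynomial.eval_prod]
    simp
  have hρC : ∀ ζ ∈ C, ρ.eval ζ ≠ 0 := by
    intro ζ hζ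
    rw [hρe]
    refine Finset.prod_ne_zero_iff.2 fun w hw h => hsC w hw ?_
    rw [← sub_eq_zero.1 h]
    exact hζ
  -- the matrix
  obtain ⟨M, hM⟩ : ∃ M : Matrix (Fin (Module.finrank ℂ E)) (Fin (Module.finrank ℂ E))
      (Polynomial ℂ), M = ∑ w ∈ s, q w • (Polynomial.C).mapMatrix ((frPsi E).symm (c w)) :=
    ⟨_, rfl⟩
  have hMe : ∀ ζ : ℂ, frPsi E ((Polynomial.evalRingHom ζ).mapMatrix M) =
      ∑ w ∈ s, (q w).eval ζ • c w := by
    intro ζ
    rw [hM, map_sum, map_sum]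
    refine Finset.sum_congr rfl fun w _ => ?_
    have h1 : (Polynomial.evalRingHom ζ).mapMatrix
        (q w • (Polynomial.C).mapMatrix ((frPsi E).symm (c w))) =
        (q w).eval ζ • (frPsi E).symm (c w) := by
      ext i j
      simp
    rw [h1, map_smul, AlgEquiv.apply_symm_apply]
  have hev : ∀ (ζ : ℂ), (Polynomial.evalRingHom ζ).mapMatrix M.adjugate =
      ((Polynomial.evalRingHom ζ).mapMatrix M).adjugate := fun ζ => RingHom.map_adjugate _ _
  have hdet : ∀ ζ : ℂ, M.det.eval ζ = ((Polynomial.evalRingHom ζ).mapMatrix M).det := by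
    intro ζ
    rw [← RingHom.map_det]
    rfl
  have hPA : ∀ ζ : ℂ, frPsi E ((Polynomial.evalRingHom ζ).mapMatrix M) *
        frPsi E ((Polynomial.evalRingHom ζ).mapMatrix M.adjugate) =
          M.det.eval ζ • (1 : E →L[ℂ] E) ∧
      frPsi E ((Polynomial.evalRingHom ζ).mapMatrix M.adjugate) *
        frPsi E ((Polynomial.evalRingHom ζ).mapMatrix M) =
          M.det.eval ζ • (1 : E →L[ℂ] E) := by
    intro ζ
    constructor
    · rw [← map_mul, hev, Matrix.mul_adjugate, map_smul, map_one, hdet]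
    · rw [← map_mul, hev, Matrix.adjugate_mul, map_smul, map_one, hdet]
  have hmain : ∀ ζ ∈ C, M.det.eval ζ ≠ 0 ∧
      ‖(ρ.eval ζ * (M.det.eval ζ)⁻¹) •
        (frPsi E ((Polynomial.evalRingHom ζ).mapMatrix M.adjugate) * G ζ) - 1‖ ≤ τ := by
    intro ζ hζ
    obtain ⟨r, hr⟩ : ∃ r : E →L[ℂ] E, r = ∑ w ∈ s, (ζ - w)⁻¹ • c w := ⟨_, rfl⟩
    have hPr : frPsi E ((Polynomial.evalRingHom ζ).mapMatrix M) = ρ.eval ζ • r := by
      rw [hMe, hr, Finset.smul_sum]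
      refine Finset.sum_congr rfl fun w hw => ?_
      have h1 : ζ - w ≠ 0 := fun h => hsC w hw (by rw [← sub_eq_zero.1 h]; exact hζ)
      rw [smul_smul, hρq w hw, Polynomial.eval_mul]
      congr 1
      simp only [Polynomial.eval_sub, Polynomial.eval_X, Polynomial.eval_C]
      field_simp
    obtain ⟨u, hu⟩ := hunit ζ hζ
    have hGi : G ζ * Ring.inverse (G ζ) = 1 := Ring.mul_inverse_cancel _ (hunit ζ hζ)
    have hiG : Ring.inverse (G ζ) * G ζ = 1 := Ring.inverse_mul_cancel _ (hunit ζ hζ)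
    have hnorm : ‖Ring.inverse (G ζ) * (G ζ - r)‖ ≤ C0 * τ' := by
      refine (norm_mul_le _ _).trans ?_
      refine mul_le_mul (hC0 ζ hζ) ?_ (norm_nonneg _) hC00
      rw [hr]
      exact hsum ζ hζ
    have hru : IsUnit r := by
      have h1 : r = G ζ * (1 - Ring.inverse (G ζ) * (G ζ - r)) := by
        rw [mul_sub, ← mul_assoc, hGi, one_mul, mul_one]
        abel
      rw [h1]
      exact (hunit ζ hζ).mul (isUnit_one_sub_of_norm_lt_one (by linarith))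
    have hPu : IsUnit (frPsi E ((Polynomial.evalRingHom ζ).mapMatrix M)) := by
      rw [hPr]
      exact (IsUnit.smul (Units.mk0 _ (hρC ζ hζ)) hru)
    have hMu : IsUnit ((Polynomial.evalRingHom ζ).mapMatrix M) := by
      have h1 := hPu.map (frPsi E).symm
      rwa [AlgEquiv.symm_apply_apply] at h1
    have hd0 : M.det.eval ζ ≠ 0 := by
      rw [hdet]
      exact ((Matrix.isUnit_iff_isUnit_det _).1 hMu).ne_zero
    refine ⟨hd0, ?_⟩
    obtain ⟨Aζ, hAζ⟩ : ∃ Aζ : E →L[ℂ] E,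
        Aζ = frPsi E ((Polynomial.evalRingHom ζ).mapMatrix M.adjugate) := ⟨_, rfl⟩
    have hAP := (hPA ζ).2
    rw [← hAζ, hPr] at hAP
    rw [← hAζ]
    have hRr : ((ρ.eval ζ * (M.det.eval ζ)⁻¹) • Aζ) * r = 1 := by
      have h1 : Aζ * (ρ.eval ζ • r) = ρ.eval ζ • (Aζ * r) := mul_smul_comm _ _ _
      rw [h1] at hAP
      rw [smul_mul_assoc, mul_comm, ← smul_smul, hAP, smul_smul, inv_mul_cancel₀ hd0, one_smul]
    have h1 := fr_pert ((ρ.eval ζ * (M.det.eval ζ)⁻¹) • Aζ) (G ζ) r (Ring.inverse (G ζ)) hRr hGi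
      (q := C0 * τ') (by positivity) (by linarith) hnorm
    rw [smul_mul_assoc] at h1
    exact h1.trans hτ2
  refine ⟨ρ, M.det, fun ζ => frPsi E ((Polynomial.evalRingHom ζ).mapMatrix M),
    fun ζ => frPsi E ((Polynomial.evalRingHom ζ).mapMatrix M.adjugate), hρ0, ?_,
    frPsi_differentiable M, frPsi_differentiable M.adjugate, hPA,
    fun ζ hζ => ⟨hρC ζ hζ, hmain ζ hζ⟩⟩
  intro h
  apply (hmain z0 hz0).1
  rw [h, Polynomial.eval_zero]

end Pool.Agent.W_4d259d_h41
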