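import Pool.Agent.W_4d259d_h41.FrRem
import Pool.Agent.W_4d259d_h41.FrRat
import Pool.Agent.W_4d259d_h41.FrPoly
import Pool.Agent.W_4d259d_h41.FrCon

/-!
# MP_4d259d_ag, block FR: the FRAME LEMMA (section 8)

Proof.  `C' = closure WA ∩ closure N`, compact (`closure N` is a closed subset of the compact
`e.symm '' closedBall 0 1`).  If `C' = ∅` then `WA ⊓ N = ⊥`, take `MA = MB = 1`.
Otherwise choose `N1'` open, `closure N1 ⊆ N1'`, `closure N1' ⊆ N` (`R` is locally compact,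
`exists_open_between_and_isCompact_closure`).  Let `τ` be the constant of `fr_contract` for
`(N1', N, WA)`, `C = e '' C'`, `G ζ = g (e.symm ζ)` (holomorphic on `e '' (U0 ∩ e.source)`),
`(ρ, d, P, A)` from `fr_rat` with this `τ`, `e' z = (ρ d⁻¹)(e z) • A (e z) g z - 1` on `O = WA ⊓ N`
(`O ⊆ C'`), and `a`, `b` from `fr_contract`, so on `O`
`g (1 + a) = ρ(e z)⁻¹ P(e z) (1 + b)`   (because `P A = d`).
Bad points: `Z = {z ∈ e.source | ρ(e z) d(e z) = 0}`, finite, disjoint from `C'`;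
`B = Z ∩ closure N1`; `V = (N1' ⊔ O) \ (Z \ B)` open, contains `closure N1 ∪ O` and `B`;
`Z ∩ V = B`.  `Y`, `q` from `exists_zeros` with `K = closure WA ∪ closure N`; `V ≤ Y`;
`B` is disjoint from `closure WA` (`B ⊆ closure N1 ⊆ closure N`, `B ∩ C' = ∅`).
`fr_poly` for `ρ` and for `d`: `ρ(e z) = uρ ∏_{Lρ} q`, `d(e z) = ud ∏_{Ld} q` on `V`.
`fr_remove` for `M z = P(e z) (1 + b z)`, `A' z = (1 + b z)⁻¹ A(e z)` (`M A' = A' M = d(e z)`) gives
`S`, `T`, `M'`.  Put `MA = (∏_{Lρ} q) • (1 + a) S` on `WA` and `MB = uρ⁻¹ • M'` on `V`.  On `O`: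
`g MA = (∏ q) ρ⁻¹ P (1 + b) S = uρ⁻¹ M' = MB`.  Bounds: `1 + a` and its inverse are bounded by `2`;
`(∏ q) S` is holomorphic and invertible on `Y \ B`, a neighbourhood of the compact `closure WA`, so it
and its inverse are bounded on `WA`; on `O` `MB = g MA` with `g`, `g⁻¹` bounded on `C'`; on `closure N1`
(compact in `V`) `MB`, `MB⁻¹` are continuous, so bounded.
-/

noncomputable section

set_option linter.unusedSectionVars false

namespace Pool.Agent.W_4d259d_h41

open Set Filter Topology Manifold Metric TopologicalSpace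
open scoped ContDiff
open Pool.Agent.W_4d259d_h46.Defs Pool.Agent.W_4d259d_h46 Pool.Agent.W_4d259d_h44

variable {R : Type*} [TopologicalSpace R] [T2Space R] [ChartedSpace ℂ R]
  [IsManifold (modelWithCornersSelf ℂ ℂ) ω R] [GoodSurface R]
variable {E : Type*} [NormedAddCommGroup E] [NormedSpace ℂ E] [FiniteDimensional ℂ E]

/-- `closure N` is compact. -/
theorem compact_closure_N {e : OpenPartialHomeomorph R ℂ} (he : e ∈ DChart R) {N : Opens R}
    (h2 : closure (N : Set R) ⊆ unitOf e) : IsCompact (closure (N : Set R)) := by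
  have h3 : closedBall (0 : ℂ) 1 ⊆ e.target :=
    (closedBall_subset_closedBall (by norm_num)).trans he.2
  have hK : IsCompact (e.symm '' closedBall (0 : ℂ) 1) :=
    (isCompact_closedBall (0 : ℂ) 1).image_of_continuousOn (e.continuousOn_symm.mono h3)
  exact hK.of_isClosed_subset isClosed_closure
    (h2.trans (image_mono ball_subset_closedBall))

theorem ff_unitOf_subset {e : OpenPartialHomeomorph R ℂ} (he : e ∈ DChart R) :
    unitOf e ⊆ e.source := by
  rintro _ ⟨ζ, hζ, rfl⟩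
  exact e.map_target (he.2 (ball_subset_closedBall (ball_subset_ball (by norm_num) hζ)))

/-- Bounds for an invertible holomorphic map near a compact set. -/
theorem bounds_on_compact {K : Set R} (hK : IsCompact K) {V : Set R} (hKV : K ⊆ V)
    {M : R → E →L[ℂ] E} (hM : HolOn (E →L[ℂ] E) M V) (hu : ∀ z ∈ V, IsUnit (M z)) :
    ∃ C : ℝ, ∀ z ∈ K, ‖M z‖ ≤ C ∧ ‖Ring.inverse (M z)‖ ≤ C := by
  have : CompleteSpace E := FiniteDimensional.complete ℂ E
  have h1 : HolOn (E →L[ℂ] E) (fun z => Ring.inverse (M z)) V := holOn_opInv hM hu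
  obtain ⟨C1, hC1⟩ := hK.exists_bound_of_continuousOn (hM.continuousOn.mono hKV)
  obtain ⟨C2, hC2⟩ := hK.exists_bound_of_continuousOn (h1.continuousOn.mono hKV)
  exact ⟨max C1 C2, fun z hz => ⟨(hC1 z hz).trans (le_max_left _ _),
    (hC2 z hz).trans (le_max_right _ _)⟩⟩

theorem ff_poly {e : OpenPartialHomeomorph R ℂ} (he : e ∈ RChart R) {V : Set R}
    (hV : V ⊆ e.source) (p : Polynomial ℂ) : HolOn ℂ (fun z => p.eval (e z)) V := by
  have h1 : HolOn ℂ e V := (chart_hol he).mono hV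
  exact holOn_comp (V := univ) (g := fun w => p.eval w) p.differentiable.differentiableOn h1
    fun _ _ => mem_univ _

theorem ff_comp {e : OpenPartialHomeomorph R ℂ} (he : e ∈ RChart R) {V : Set R}
    (hV : V ⊆ e.source) {P : ℂ → E →L[ℂ] E} (hP : Differentiable ℂ P) :
    HolOn (E →L[ℂ] E) (fun z => P (e z)) V := by
  have h1 : HolOn ℂ e V := (chart_hol he).mono hV
  exact holOn_comp (V := univ) (g := P) hP.differentiableOn h1 fun _ _ => mem_univ _

theorem ff_listProd {Y : Set R} {q : R → R → ℂ} (L : List R) (h : ∀ p ∈ L, HolOn ℂ (q p) Y) :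
    HolOn ℂ (fun z => (L.map fun p => q p z).prod) Y := by
  induction L with
  | nil => simpa using holOn_const (1 : ℂ) Y
  | cons p L ih =>
    simp only [List.map_cons, List.prod_cons]
    exact holOn_mul (h p (by simp)) (ih fun p' hp' => h p' (by simp [hp']))

theorem ff_prod_ne {L : List R} {q : R → R → ℂ} {z : R} (h : ∀ p ∈ L, q p z ≠ 0) :
    (L.map fun p => q p z).prod ≠ 0 := by
  apply List.prod_ne_zero
  intro h0
  obtain ⟨p, hp, hp2⟩ := List.mem_map.1 h0
  exact h p hp hp2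

theorem ff_smul_unit {c : ℂ} (hc : c ≠ 0) {M : E →L[ℂ] E} (h : IsUnit M) : IsUnit (c • M) := by
  obtain ⟨u, rfl⟩ := h
  refine ⟨⟨c • (u : E →L[ℂ] E), c⁻¹ • ((u⁻¹ : (E →L[ℂ] E)ˣ) : E →L[ℂ] E), ?_, ?_⟩, rfl⟩
  · rw [smul_mul_assoc, mul_smul_comm, smul_smul, mul_inv_cancel₀ hc, one_smul, Units.mul_inv]
  · rw [smul_mul_assoc, mul_smul_comm, smul_smul, inv_mul_cancel₀ hc, one_smul, Units.inv_mul]

theorem ff_inv_mul {M N : E →L[ℂ] E} (hM : IsUnit M) (hN : IsUnit N) :
    Ring.inverse (M * N) = Ring.inverse N * Ring.inverse M := by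
  obtain ⟨u, rfl⟩ := hM
  obtain ⟨v, rfl⟩ := hN
  rw [← Units.val_mul, Ring.inverse_unit, Ring.inverse_unit, Ring.inverse_unit, mul_inv_rev,
    Units.val_mul]

theorem ff_add (M : E →L[ℂ] E) [CompleteSpace E] (h : ‖M‖ ≤ 1 / 2) : IsUnit (1 + M) := by
  have h1 : ‖-M‖ < 1 := by rw [norm_neg]; linarith
  have h2 := isUnit_one_sub_of_norm_lt_one h1
  rwa [sub_neg_eq_add] at h2

/-- Bound of the inverse. -/
theorem ff_inv_le (M : E →L[ℂ] E) [CompleteSpace E] (h : ‖M‖ ≤ 1 / 2) :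
    ‖Ring.inverse (1 + M)‖ ≤ 2 * ‖(1 : E →L[ℂ] E)‖ := by
  have hu := ff_add M h
  have h1 : Ring.inverse (1 + M) = 1 - M * Ring.inverse (1 + M) := by
    have := Ring.mul_inverse_cancel _ hu
    rw [add_mul, one_mul] at this
    exact eq_sub_of_add_eq this
  have h2 : ‖Ring.inverse (1 + M)‖ ≤ ‖(1 : E →L[ℂ] E)‖ + 1 / 2 * ‖Ring.inverse (1 + M)‖ := by
    calc ‖Ring.inverse (1 + M)‖ = ‖1 - M * Ring.inverse (1 + M)‖ := by rw [← h1]
      _ ≤ ‖(1 : E →L[ℂ] E)‖ + ‖M * Ring.inverse (1 + M)‖ := norm_sub_le _ _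
      _ ≤ ‖(1 : E →L[ℂ] E)‖ + ‖M‖ * ‖Ring.inverse (1 + M)‖ := by
          gcongr; exact norm_mul_le _ _
      _ ≤ _ := by gcongr
  linarith

theorem frame {e : OpenPartialHomeomorph R ℂ} (he : e ∈ DChart R) (N1 N WA : Opens R)
    (h1 : closure (N1 : Set R) ⊆ N) (h2 : closure (N : Set R) ⊆ unitOf e)
    (h3 : IsCompact (closure (WA : Set R))) {U0 : Opens R}
    (hU0 : closure (WA : Set R) ∩ closure (N : Set R) ⊆ U0) {g : R → E →L[ℂ] E}
    (hg : HolOn (E →L[ℂ] E) g U0) (hgu : ∀ z ∈ U0, IsUnit (g z)) :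
    ∃ (MA MB : R → E →L[ℂ] E) (C : ℝ), HolOn (E →L[ℂ] E) MA WA ∧
      HolOn (E →L[ℂ] E) MB (N1 ⊔ (WA ⊓ N) : Opens R) ∧
      (∀ z ∈ WA, ‖MA z‖ ≤ C ∧ IsUnit (MA z) ∧ ‖Ring.inverse (MA z)‖ ≤ C) ∧
      (∀ z ∈ (N1 ⊔ (WA ⊓ N) : Opens R),
        ‖MB z‖ ≤ C ∧ IsUnit (MB z) ∧ ‖Ring.inverse (MB z)‖ ≤ C) ∧
      ∀ z ∈ WA ⊓ N, g z * MA z = MB z := by
  classical
  have hcomp : CompleteSpace E := FiniteDimensional.complete ℂ E
  have hloc : LocallyCompactSpace R := ChartedSpace.locallyCompactSpace ℂ R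
  have heR : e ∈ RChart R := he.1
  have hNe : closure (N : Set R) ⊆ e.source := h2.trans (ff_unitOf_subset he)
  have hNc := compact_closure_N he h2
  set C' : Set R := closure (WA : Set R) ∩ closure (N : Set R) with hC'def
  have hC'c : IsCompact C' := h3.inter_right isClosed_closure
  have hOC' : ((WA ⊓ N : Opens R) : Set R) ⊆ C' := fun z hz =>
    ⟨subset_closure hz.1, subset_closure hz.2⟩
  rcases C'.eq_empty_or_nonempty with hemp | hne
  · -- trivial case
    have hO : ∀ z ∈ WA ⊓ N, False := fun z hz => by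
      have := hOC' hz
      rw [hemp] at this
      exact this
    refine ⟨fun _ => 1, fun _ => 1, ‖(1 : E →L[ℂ] E)‖, holOn_const _ _, holOn_const _ _, ?_, ?_,
      fun z hz => (hO z hz).elim⟩
    · intro z _
      exact ⟨le_rfl, isUnit_one, by rw [Ring.inverse_one]⟩
    · intro z _
      exact ⟨le_rfl, isUnit_one, by rw [Ring.inverse_one]⟩
  -- the larger bump
  have hN1c : IsCompact (closure (N1 : Set R)) :=
    hNc.of_isClosed_subset isClosed_closure (h1.trans subset_closure)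
  obtain ⟨N1', hN1'o, hN1N1', hN1'N, -⟩ :=
    exists_open_between_and_isCompact_closure hN1c N.isOpen h1
  let N1o : Opens R := ⟨N1', hN1'o⟩
  obtain ⟨τ, hτ, hcon⟩ := fr_contract (E := E) he N1o N WA hN1'N h2 h3
  -- the rational approximation
  have hC'e : C' ⊆ e.source := fun z hz => hNe hz.2
  have hUo : IsOpen ((U0 : Set R) ∩ e.source) := U0.isOpen.inter e.open_source
  obtain ⟨ρ, d, P, A, hρ, hd, hP, hA, hPA, hest⟩ := fr_rat (C := e '' C')
    (U := e '' ((U0 : Set R) ∩ e.source)) (G := fun ζ => g (e.symm ζ))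
    (hC'c.image_of_continuousOn (e.continuousOn.mono hC'e)) (hne.image _)
    (e.isOpen_image_of_subset_source hUo inter_subset_right)
    (image_mono fun z hz => ⟨hU0 hz, hC'e hz⟩)
    ((holOn_iff_inChart heR hUo inter_subset_right).1 (hg.mono inter_subset_left))
    (by
      rintro _ ⟨z, hz, rfl⟩
      simp only [e.left_inv (hC'e hz)]
      exact hgu z (hU0 hz)) hτ
  have hestC : ∀ z ∈ C', ρ.eval (e z) ≠ 0 ∧ d.eval (e z) ≠ 0 ∧
      ‖(ρ.eval (e z) * (d.eval (e z))⁻¹) • (A (e z) * g z) - 1‖ ≤ τ := by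
    intro z hz
    have := hest (e z) ⟨z, hz, rfl⟩
    simp only [e.left_inv (hC'e hz)] at this
    exact this
  let e' : R → E →L[ℂ] E := fun z =>
    (ρ.eval (e z) * (d.eval (e z))⁻¹) • (A (e z) * g z) - 1
  have hOe : ((WA ⊓ N : Opens R) : Set R) ⊆ e.source := hOC'.trans hC'e
  have he'hol : HolOn (E →L[ℂ] E) e' (WA ⊓ N : Opens R) := by
    refine holOn_sub (holOn_smul (holOn_mul (ff_poly heR hOe ρ)
      (holOn_inv (ff_poly heR hOe d) fun z hz => (hestC z (hOC' hz)).2.1)) ?_)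
      (holOn_const _ _)
    exact holOn_opMul (ff_comp heR hOe hA) (hg.mono (hOC'.trans hU0))
  obtain ⟨a, b, ha, hb, ha2, hb2, hab⟩ := hcon e' he'hol fun z hz => (hestC z (hOC' hz)).2.2
  have hab' : ∀ z ∈ WA ⊓ N, ρ.eval (e z) • (g z * (1 + a z)) = P (e z) * (1 + b z) := by
    intro z hz
    have h := hestC z (hOC' hz)
    rw [← hab z hz]
    have h5 : (1 : E →L[ℂ] E) + e' z = (ρ.eval (e z) * (d.eval (e z))⁻¹) • (A (e z) * g z) := by
      simp [e']
    rw [h5, smul_mul_assoc, mul_smul_comm, mul_assoc, ← mul_assoc (P (e z)), (hPA (e z)).1,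
      smul_mul_assoc, one_mul, smul_smul, mul_assoc, inv_mul_cancel₀ h.2.1, mul_one]
  -- bad points
  let Zs : Set R := {z | z ∈ e.source ∧ (ρ.eval (e z) = 0 ∨ d.eval (e z) = 0)}
  have hZfin : Zs.Finite := by
    have h5 : (e '' Zs).Finite := by
      refine ((ρ * d).roots.toFinset.finite_toSet).subset ?_
      rintro _ ⟨z, hz, rfl⟩
      simp only [Finset.mem_coe, Multiset.mem_toFinset]
      rw [Polynomial.mem_roots (mul_ne_zero hρ hd), Polynomial.IsRoot.def, Polynomial.eval_mul]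
      rcases hz.2 with h6 | h6
      · rw [h6, zero_mul]
      · rw [h6, mul_zero]
    exact Finite.of_finite_image h5 (e.injOn.mono fun z hz => hz.1)
  let B : Set R := Zs ∩ closure (N1 : Set R)
  have hBfin : B.Finite := hZfin.subset inter_subset_left
  have hZC' : ∀ z ∈ Zs, z ∉ C' := by
    intro z hz hzC
    have := hestC z hzC
    rcases hz.2 with h6 | h6
    · exact this.1 h6
    · exact this.2.1 h6
  have hBWA : ∀ z ∈ closure (WA : Set R), z ∉ B := by
    intro z hz hzB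
    exact hZC' z hzB.1 ⟨hz, subset_closure (h1 hzB.2)⟩
  let V : Opens R := ⟨(N1' ∪ ((WA ⊓ N : Opens R) : Set R)) \ (Zs \ B),
    (hN1'o.union (WA ⊓ N).isOpen).sdiff (hZfin.subset sdiff_subset).isClosed⟩
  have hN1V : closure (N1 : Set R) ⊆ V := by
    intro z hz
    refine ⟨Or.inl (hN1N1' hz), fun h6 => h6.2 ⟨h6.1, hz⟩⟩
  have hOV : ((WA ⊓ N : Opens R) : Set R) ⊆ V := by
    intro z hz
    exact ⟨Or.inr hz, fun h6 => hZC' z h6.1 (hOC' hz)⟩
  have hBV : B ⊆ V := fun z hz => hN1V hz.2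
  have hVb : (V : Set R) ⊆ (N1o ⊔ (WA ⊓ N) : Opens R) := fun z hz => hz.1
  have hVe : (V : Set R) ⊆ e.source := by
    intro z hz
    rcases hz.1 with h6 | h6
    · exact hNe (subset_closure (hN1'N (subset_closure h6)))
    · exact hOe h6
  have hroot : ∀ z ∈ V, ρ.eval (e z) = 0 ∨ d.eval (e z) = 0 → z ∈ B := by
    intro z hz h6
    by_contra h7
    exact hz.2 ⟨⟨hVe hz, h6⟩, h7⟩
  obtain ⟨Y, hKY, q, hq⟩ := exists_zeros (R := R) (h3.union hNc) hBfin
    (fun z hz => Or.inr (subset_closure (h1 hz.2)))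
  have hVY : V ≤ Y := by
    intro z hz
    rcases hz.1 with h6 | h6
    · exact hKY (Or.inr (subset_closure (hN1'N (subset_closure h6))))
    · exact hKY (Or.inl (subset_closure h6.1))
  obtain ⟨Lρ, uρ, hLρ, huρ, huρ0, hρeq⟩ := fr_poly heR hVY hVe hBV hq ρ hρ
    fun z hz h6 => hroot z hz (Or.inl h6)
  obtain ⟨Ld, ud, hLd, hud, hud0, hdeq⟩ := fr_poly heR hVY hVe hBV hq d hd
    fun z hz h6 => hroot z hz (Or.inr h6)
  have hbu : ∀ z ∈ V, IsUnit (1 + b z) := fun z hz => ff_add _ (hb2 z (hVb hz))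
  have hbV : HolOn (E →L[ℂ] E) (fun z => 1 + b z) V :=
    holOn_add (holOn_const _ _) (hb.mono hVb)
  obtain ⟨S, T, M', hS, hT, hST, hM', hM'u, hM'eq⟩ := fr_remove hVY hBfin hBV hq Ld hLd
    (M := fun z => P (e z) * (1 + b z)) (A := fun z => Ring.inverse (1 + b z) * A (e z))
    (u := ud) (holOn_opMul (ff_comp heR hVe hP) hbV)
    (holOn_opMul (holOn_opInv hbV hbu) (ff_comp heR hVe hA)) hud hud0
    (by
      intro z hz
      rw [← hdeq z hz, ← (hPA (e z)).1, mul_assoc, ← mul_assoc (1 + b z),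
        Ring.mul_inverse_cancel _ (hbu z hz), one_mul])
    (by
      intro z hz
      rw [← hdeq z hz, mul_assoc, ← mul_assoc (A (e z)), (hPA (e z)).2, smul_mul_assoc, one_mul,
        mul_smul_comm, Ring.inverse_mul_cancel _ (hbu z hz)])
  -- the product of the `q`
  let Q : R → ℂ := fun z => (Lρ.map fun p => q p z).prod
  have hQ : HolOn ℂ Q Y := ff_listProd Lρ fun p hp => (hq p (hLρ p hp)).hol
  have hQ0 : ∀ z ∈ (Y : Set R) \ B, Q z ≠ 0 := by
    intro z hz
    refine ff_prod_ne fun p hp h6 => ?_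
    have := (hq p (hLρ p hp)).only z hz.1 h6
    rw [this] at hz
    exact hz.2 (hLρ p hp)
  have hYB : IsOpen ((Y : Set R) \ B) := Y.isOpen.sdiff hBfin.isClosed
  have hWAY : closure (WA : Set R) ⊆ (Y : Set R) \ B := fun z hz =>
    ⟨hKY (Or.inl hz), hBWA z hz⟩
  have hSu : ∀ z ∈ (Y : Set R) \ B, IsUnit (S z) := fun z hz =>
    ⟨⟨S z, T z, (hST z hz).1, (hST z hz).2⟩, rfl⟩
  let QS : R → E →L[ℂ] E := fun z => Q z • S z
  have hQS : HolOn (E →L[ℂ] E) QS ((Y : Set R) \ B) := holOn_smul (hQ.mono sdiff_subset) hS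
  have hQSu : ∀ z ∈ (Y : Set R) \ B, IsUnit (QS z) := by
    intro z hz
    exact ff_smul_unit (hQ0 z hz) (hSu z hz)
  obtain ⟨C1, hC1⟩ := bounds_on_compact h3 hWAY hQS hQSu
  obtain ⟨C2, hC2⟩ := bounds_on_compact hC'c hU0 hg hgu
  let MA : R → E →L[ℂ] E := fun z => (1 + a z) * QS z
  let MB : R → E →L[ℂ] E := fun z => (uρ z)⁻¹ • M' z
  have hMBV : HolOn (E →L[ℂ] E) MB V := holOn_smul (holOn_inv huρ huρ0) hM'
  have hMBu : ∀ z ∈ V, IsUnit (MB z) := fun z hz =>
    ff_smul_unit (inv_ne_zero (huρ0 z hz)) (hM'u z hz)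
  obtain ⟨C3, hC3⟩ := bounds_on_compact hN1c hN1V hMBV hMBu
  have hau : ∀ z ∈ WA, IsUnit (1 + a z) := fun z hz => ff_add _ (ha2 z hz)
  have hMAu : ∀ z ∈ WA, IsUnit (MA z) := fun z hz =>
    (hau z hz).mul (hQSu z (hWAY (subset_closure hz)))
  have hgM : ∀ z ∈ WA ⊓ N, g z * MA z = MB z := by
    intro z hz
    have hzV : z ∈ V := hOV hz
    have hzB : z ∉ B := fun h6 => hZC' z h6.1 (hOC' hz)
    have h6 := hM'eq z ⟨hzV, hzB⟩
    have h7 := hρeq z hzV
    have h8 := (hestC z (hOC' hz)).1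
    simp only [MA, MB, QS]
    rw [h6, ← hab' z hz, h7]
    simp only [mul_smul_comm, smul_mul_assoc, smul_smul, ← mul_assoc]
    congr 1
    rw [inv_mul_cancel₀ (huρ0 z hzV), one_mul]
  let n1 : ℝ := ‖(1 : E →L[ℂ] E)‖
  have hn1 : 0 ≤ n1 := norm_nonneg _
  -- bounds for `MA`
  obtain ⟨zc, hzc⟩ := hne
  have hC10 : 0 ≤ C1 := (norm_nonneg _).trans (hC1 zc hzc.1).1
  have hC20 : 0 ≤ C2 := (norm_nonneg _).trans (hC2 zc hzc).1
  let CA : ℝ := (n1 + 2 * n1 + 1) * C1
  have hMAb : ∀ z ∈ WA, ‖MA z‖ ≤ CA ∧ ‖Ring.inverse (MA z)‖ ≤ CA := by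
    intro z hz
    have hz' := hC1 z (subset_closure hz)
    constructor
    · calc ‖MA z‖ ≤ ‖1 + a z‖ * ‖QS z‖ := norm_mul_le _ _
        _ ≤ (n1 + 1 / 2) * C1 := by
            have : ‖1 + a z‖ ≤ n1 + 1 / 2 := (norm_add_le _ _).trans (by
              have := ha2 z hz
              change n1 + ‖a z‖ ≤ _
              linarith)
            gcongr
            exact hz'.1
        _ ≤ CA := by
            apply mul_le_mul_of_nonneg_right _ hC10
            linarith
    · have h6 : Ring.inverse (MA z) = Ring.inverse (QS z) * Ring.inverse (1 + a z) :=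
        ff_inv_mul (hau z hz) (hQSu z (hWAY (subset_closure hz)))
      rw [h6]
      calc _ ≤ ‖Ring.inverse (QS z)‖ * ‖Ring.inverse (1 + a z)‖ := norm_mul_le _ _
        _ ≤ C1 * (2 * n1) := by
            gcongr
            · exact hz'.2
            · exact ff_inv_le _ (ha2 z hz)
        _ ≤ CA := by
            have : C1 * (2 * n1) = (2 * n1) * C1 := mul_comm _ _
            rw [this]
            apply mul_le_mul_of_nonneg_right _ hC10
            linarith
  have hCA0 : 0 ≤ CA := mul_nonneg (by linarith) hC10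
  refine ⟨MA, MB, max CA (max C3 (C2 * CA)), ?_, ?_, ?_, ?_, hgM⟩
  · exact holOn_opMul (holOn_add (holOn_const _ _) ha) (hQS.mono (subset_closure.trans hWAY))
  · refine hMBV.mono ?_
    intro z hz
    rcases hz with h6 | h6
    · exact hN1V (subset_closure h6)
    · exact hOV h6
  · intro z hz
    have h6 := hMAb z hz
    exact ⟨h6.1.trans (le_max_left _ _), hMAu z hz, h6.2.trans (le_max_left _ _)⟩
  · intro z hz
    rcases hz with h6 | h6
    · have h7 := hC3 z (subset_closure h6)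
      exact ⟨h7.1.trans ((le_max_left _ _).trans (le_max_right _ _)),
        hMBu z (hN1V (subset_closure h6)),
        h7.2.trans ((le_max_left _ _).trans (le_max_right _ _))⟩
    · have h6' : z ∈ WA ⊓ N := h6
      have h7 := hC2 z (hOC' h6)
      have h8 := hMAb z h6'.1
      have hb1 : ‖MB z‖ ≤ C2 * CA := by
        rw [← hgM z h6']
        exact (norm_mul_le _ _).trans (mul_le_mul h7.1 h8.1 (norm_nonneg _) hC20)
      have hb2 : ‖Ring.inverse (MB z)‖ ≤ C2 * CA := by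
        rw [← hgM z h6', ff_inv_mul (hgu z (hU0 (hOC' h6))) (hMAu z h6'.1)]
        refine (norm_mul_le _ _).trans ?_
        rw [mul_comm]
        exact mul_le_mul h7.2 h8.2 (norm_nonneg _) hC20
      exact ⟨hb1.trans ((le_max_right _ _).trans (le_max_right _ _)), hMBu z (hOV h6),
        hb2.trans ((le_max_right _ _).trans (le_max_right _ _))⟩

end Pool.Agent.W_4d259d_h41
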