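import Pool.Agent.W_4d259d_h41.FrDefs

/-!
# MP_4d259d_ag, block FR: removal of the zeros of an operator valued holomorphic map (section 8)

`M z * A z = A z * M z = u z * ∏ q_p z` on `V`, `u` without zeros.  There are `S`, `T = S⁻¹`
holomorphic off the finite set `B`, such that `M S` extends to a holomorphic and invertible map
`M'` on `V`.

Proof of `fr_remove`: induction on the list `L`.  `L = []`: `S = T = 1`, `M' = M` (`M A = A M = u`,
so `M z` is a unit).  `L = p :: L'`: by `exists_proj` there is a constant projection `π` onto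
`ker M(p)`: `M p * π = 0`, and `(1 - π) A p = 0` because `M p * A p = 0` (the product contains
`q p p = 0`).  By `exists_div` (ApiB) on `V`: `M z * π = q p z • M1 z`,
`(1 - π) * A z = q p z • A1 z`, `M1`, `A1` holomorphic on `V`.  Put `M2 = M (1 - π) + M1`,
`A2 = π A + A1`.  For `z ∈ V`, `z ≠ p`: `M1 = q⁻¹ M π`, `A1 = q⁻¹ (1 - π) A`, so
`M2 A2 = (M (1 - π) + q⁻¹ M π) (π A + q⁻¹ (1 - π) A) = q⁻¹ M A = (u ∏_{L'} q) • 1`, and in the same
way `A2 M2 = q⁻¹ • (π (A M) π + (1 - π) (A M) (1 - π)) = (u ∏_{L'} q) • 1` since `A M` is scalar;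
at `z = p` by continuity (`p` is not isolated in `R`, charts).  The induction hypothesis for
`(M2, A2, L')` gives `S'`, `T'`, `M'`; put `S = ((1 - π) + q⁻¹ π) S'`, `T = T' ((1 - π) + q π)`.
-/

noncomputable section

set_option linter.unusedSectionVars false

namespace Pool.Agent.W_4d259d_h41

open Set Filter Topology Manifold Metric TopologicalSpace
open scoped ContDiff
open Pool.Agent.W_4d259d_h46.Defs Pool.Agent.W_4d259d_h46 Pool.Agent.W_4d259d_h44

variable {R : Type*} [TopologicalSpace R] [ChartedSpace ℂ R]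
  [IsManifold (modelWithCornersSelf ℂ ℂ) ω R]
variable {E : Type*} [NormedAddCommGroup E] [NormedSpace ℂ E] [FiniteDimensional ℂ E]

/-- A projection onto the kernel. -/
theorem exists_proj (M : E →L[ℂ] E) : ∃ π : E →L[ℂ] E, π * π = π ∧ M * π = 0 ∧
    ∀ A : E →L[ℂ] E, M * A = 0 → π * A = A := by
  obtain ⟨W, hW⟩ := Submodule.exists_isCompl (LinearMap.ker (M : E →ₗ[ℂ] E))
  let P : E →ₗ[ℂ] E := (LinearMap.ker (M : E →ₗ[ℂ] E)).subtype ∘ₗ
    Submodule.projectionOnto _ W hW
  have hP1 : ∀ v, M (P v) = 0 := fun v => by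
    have h1 : P v ∈ LinearMap.ker (M : E →ₗ[ℂ] E) := (Submodule.projectionOnto _ W hW v).2
    exact h1
  have hP2 : ∀ v, M v = 0 → P v = v := fun v hv => by
    have h1 : v ∈ LinearMap.ker (M : E →ₗ[ℂ] E) := hv
    have h2 := Submodule.projectionOnto_apply_left hW ⟨v, h1⟩
    show ((Submodule.projectionOnto _ W hW v : LinearMap.ker (M : E →ₗ[ℂ] E)) : E) = v
    rw [h2]
  refine ⟨LinearMap.toContinuousLinearMap P, ?_, ?_, ?_⟩
  · ext v
    show P (P v) = P v
    exact hP2 _ (hP1 v)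
  · ext v
    exact hP1 v
  · intro A hA
    ext v
    show P (A v) = A v
    exact hP2 _ (by
      have := DFunLike.congr_fun hA v
      exact this)

private theorem rem_alg {𝔸 : Type*} [Ring 𝔸] [Algebra ℂ 𝔸] {M A π M1 A1 : 𝔸} (hπ : π * π = π)
    {q c : ℂ} (hq : q ≠ 0) (h1 : M * π = q • M1) (h2 : (1 - π) * A = q • A1)
    (h3 : M * A = (q * c) • (1 : 𝔸)) (h4 : A * M = (q * c) • (1 : 𝔸)) :
    (M * (1 - π) + M1) * (π * A + A1) = c • (1 : 𝔸) ∧
      (π * A + A1) * (M * (1 - π) + M1) = c • (1 : 𝔸) := by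
  have hM1 : M1 = q⁻¹ • (M * π) := by rw [h1, smul_smul, inv_mul_cancel₀ hq, one_smul]
  have hA1 : A1 = q⁻¹ • ((1 - π) * A) := by rw [h2, smul_smul, inv_mul_cancel₀ hq, one_smul]
  obtain ⟨ρ, hρ⟩ : ∃ ρ : 𝔸, ρ = 1 - π := ⟨_, rfl⟩
  rw [← hρ] at hA1 ⊢
  have r1 : ρ * π = 0 := by rw [hρ, sub_mul, one_mul, hπ, sub_self]
  have r2 : π * ρ = 0 := by rw [hρ, mul_sub, mul_one, hπ, sub_self]
  have r3 : ρ * ρ = ρ := by
    have : ρ * (1 - π) = ρ := by rw [mul_sub, mul_one, r1, sub_zero]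
    rwa [← hρ] at this
  have r4 : ρ + π = 1 := by rw [hρ, sub_add_cancel]
  rw [hM1, hA1]
  constructor
  · have e1 : (M * ρ) * (π * A) = 0 := by
      rw [mul_assoc, ← mul_assoc ρ π A, r1, zero_mul, mul_zero]
    have e2 : (M * ρ) * (ρ * A) = M * ρ * A := by
      rw [mul_assoc, ← mul_assoc ρ ρ A, r3, ← mul_assoc]
    have e3 : (M * π) * (π * A) = M * π * A := by
      rw [mul_assoc, ← mul_assoc π π A, hπ, ← mul_assoc]
    have e4 : (M * π) * (ρ * A) = 0 := by
      rw [mul_assoc, ← mul_assoc π ρ A, r2, zero_mul, mul_zero]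
    rw [add_mul, mul_add, mul_add, mul_smul_comm, smul_mul_assoc, smul_mul_assoc, mul_smul_comm,
      e1, e2, e3, e4, smul_zero, smul_zero, zero_add, add_zero, ← smul_add, ← add_mul, ← mul_add,
      r4, mul_one, h3, smul_smul, ← mul_assoc, inv_mul_cancel₀ hq, one_mul]
  · have e1 : ∀ a b : 𝔸, (a * A) * (M * b) = (q * c) • (a * b) := by
      intro a b
      rw [mul_assoc, ← mul_assoc A M b, h4, smul_mul_assoc, one_mul, mul_smul_comm]
    rw [add_mul, mul_add, mul_add, mul_smul_comm, smul_mul_assoc, smul_mul_assoc, mul_smul_comm,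
      e1, e1, e1, e1, r1, r2, r3, hπ, smul_zero, smul_zero, smul_zero, zero_add, add_zero,
      ← smul_add, ← smul_add, add_comm π ρ, r4, smul_smul, ← mul_assoc, inv_mul_cancel₀ hq,
      one_mul]

/-- Points of `R` are not isolated: two holomorphic maps which agree off `p` agree at `p`. -/
theorem holOn_eq_at {F : Type*} [NormedAddCommGroup F] [NormedSpace ℂ F] {V : Opens R}
    {f g : R → F} (hf : HolOn F f V) (hg : HolOn F g V) {p : R} (hp : p ∈ V)
    (h : ∀ z ∈ V, z ≠ p → f z = g z) : f p = g p := by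
  have hne : (𝓝[≠] p).NeBot := by
    by_contra hcon
    rw [not_neBot, ← isOpen_singleton_iff_punctured_nhds] at hcon
    have h1 := (chartAt ℂ p).isOpen_image_of_subset_source hcon
      (singleton_subset_iff.2 (mem_chart_source ℂ p))
    rw [image_singleton] at h1
    exact not_isOpen_singleton _ h1
  have hV : (V : Set R) ∈ 𝓝 p := V.isOpen.mem_nhds hp
  have h1 : Tendsto f (𝓝[≠] p) (𝓝 (f p)) :=
    ((hf.continuousOn.continuousAt hV).tendsto).mono_left nhdsWithin_le_nhds
  have h2 : Tendsto g (𝓝[≠] p) (𝓝 (g p)) :=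
    ((hg.continuousOn.continuousAt hV).tendsto).mono_left nhdsWithin_le_nhds
  refine tendsto_nhds_unique (h1.congr' ?_) h2
  filter_upwards [nhdsWithin_le_nhds hV, self_mem_nhdsWithin] with z hz hzp
  exact h z hz hzp

theorem fr_remove {Y V : Opens R} (hVY : V ≤ Y) {B : Set R} (hB : B.Finite) (hBV : B ⊆ V)
    {q : R → R → ℂ} (hq : ∀ p ∈ B, OneZero (Y : Set R) p (q p)) (L : List R)
    (hL : ∀ p ∈ L, p ∈ B) {M A : R → E →L[ℂ] E} {u : R → ℂ} (hM : HolOn (E →L[ℂ] E) M V)
    (hA : HolOn (E →L[ℂ] E) A V) (hu : HolOn ℂ u V) (hu0 : ∀ z ∈ V, u z ≠ 0)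
    (h1 : ∀ z ∈ V, M z * A z = (u z * (L.map fun p => q p z).prod) • (1 : E →L[ℂ] E))
    (h2 : ∀ z ∈ V, A z * M z = (u z * (L.map fun p => q p z).prod) • (1 : E →L[ℂ] E)) :
    ∃ S T M' : R → E →L[ℂ] E, HolOn (E →L[ℂ] E) S ((Y : Set R) \ B) ∧
      HolOn (E →L[ℂ] E) T ((Y : Set R) \ B) ∧
      (∀ z ∈ (Y : Set R) \ B, S z * T z = 1 ∧ T z * S z = 1) ∧
      HolOn (E →L[ℂ] E) M' V ∧ (∀ z ∈ V, IsUnit (M' z)) ∧
      ∀ z ∈ (V : Set R) \ B, M' z = M z * S z := by
  have : CompleteSpace E := FiniteDimensional.complete ℂ E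
  have hprod : ∀ L : List R, (∀ p ∈ L, p ∈ B) →
      HolOn ℂ (fun z => (L.map fun p => q p z).prod) (Y : Set R) := by
    intro L
    induction L with
    | nil =>
      intro _
      simpa using holOn_const (R := R) (1 : ℂ) (Y : Set R)
    | cons p L ih =>
      intro hL
      simp only [List.map_cons, List.prod_cons]
      exact holOn_mul (hq p (hL p (List.mem_cons_self ..))).hol
        (ih fun p' hp' => hL p' (List.mem_cons_of_mem _ hp'))
  induction L generalizing M A with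
  | nil =>
    refine ⟨fun _ => 1, fun _ => 1, M, holOn_const _ _, holOn_const _ _,
      fun z _ => ⟨one_mul _, one_mul _⟩, hM, fun z hz => ?_, fun z _ => (mul_one _).symm⟩
    have e1 := h1 z hz
    have e2 := h2 z hz
    simp only [List.map_nil, List.prod_nil, mul_one] at e1 e2
    refine ⟨⟨M z, (u z)⁻¹ • A z, ?_, ?_⟩, rfl⟩
    · rw [mul_smul_comm, e1, smul_smul, inv_mul_cancel₀ (hu0 z hz), one_smul]
    · rw [smul_mul_assoc, e2, smul_smul, inv_mul_cancel₀ (hu0 z hz), one_smul]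
  | cons p L ih =>
    have hpB : p ∈ B := hL p (List.mem_cons_self ..)
    have hLB : ∀ p' ∈ L, p' ∈ B := fun p' hp' => hL p' (List.mem_cons_of_mem _ hp')
    have hpV : p ∈ V := hBV hpB
    have hqp := hq p hpB
    have hqpp : q p p = 0 := hqp.simple.1
    have hqV : HolOn ℂ (q p) (V : Set R) := hqp.hol.mono hVY
    have hq0 : ∀ z ∈ (V : Set R), q p z = 0 → z = p := fun z hz => hqp.only z (hVY hz)
    obtain ⟨π, hπ, hMπ, hπA⟩ := exists_proj (M p)
    have hAp : (1 - π) * A p = 0 := by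
      have h3 : M p * A p = 0 := by
        rw [h1 p hpV, List.map_cons, List.prod_cons, hqpp, zero_mul, mul_zero, zero_smul]
      rw [sub_mul, one_mul, hπA _ h3, sub_self]
    obtain ⟨M1, hM1, hM1e⟩ := exists_div V.isOpen hqV hq0 hqp.simple
      (holOn_opMul hM (holOn_const π (V : Set R))) (fun _ => hMπ)
    obtain ⟨A1, hA1, hA1e⟩ := exists_div V.isOpen hqV hq0 hqp.simple
      (holOn_opMul (holOn_const (1 - π) (V : Set R)) hA) (fun _ => hAp)
    have hM2 : HolOn (E →L[ℂ] E) (fun z => M z * (1 - π) + M1 z) V :=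
      holOn_add (holOn_opMul hM (holOn_const (1 - π) (V : Set R))) hM1
    have hA2 : HolOn (E →L[ℂ] E) (fun z => π * A z + A1 z) V :=
      holOn_add (holOn_opMul (holOn_const π (V : Set R)) hA) hA1
    have hsc : HolOn (E →L[ℂ] E)
        (fun z => (u z * (L.map fun p => q p z).prod) • (1 : E →L[ℂ] E)) V :=
      holOn_smul (holOn_mul hu ((hprod L hLB).mono hVY)) (holOn_const _ _)
    have hoff : ∀ z ∈ V, z ≠ p →
        (M z * (1 - π) + M1 z) * (π * A z + A1 z) =
          (u z * (L.map fun p => q p z).prod) • (1 : E →L[ℂ] E) ∧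
        (π * A z + A1 z) * (M z * (1 - π) + M1 z) =
          (u z * (L.map fun p => q p z).prod) • (1 : E →L[ℂ] E) := by
      intro z hz hzp
      have hqz : q p z ≠ 0 := fun h => hzp (hq0 z hz h)
      have e3 := h1 z hz
      have e4 := h2 z hz
      rw [List.map_cons, List.prod_cons, mul_left_comm] at e3 e4
      exact rem_alg hπ hqz (hM1e z hz) (hA1e z hz) e3 e4
    have hMA : ∀ z ∈ V, (M z * (1 - π) + M1 z) * (π * A z + A1 z) =
        (u z * (L.map fun p => q p z).prod) • (1 : E →L[ℂ] E) := by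
      intro z hz
      by_cases hzp : z = p
      · subst hzp
        exact holOn_eq_at (holOn_opMul hM2 hA2) hsc hz fun w hw hwp => (hoff w hw hwp).1
      · exact (hoff z hz hzp).1
    have hAM : ∀ z ∈ V, (π * A z + A1 z) * (M z * (1 - π) + M1 z) =
        (u z * (L.map fun p => q p z).prod) • (1 : E →L[ℂ] E) := by
      intro z hz
      by_cases hzp : z = p
      · subst hzp
        exact holOn_eq_at (holOn_opMul hA2 hM2) hsc hz fun w hw hwp => (hoff w hw hwp).2
      · exact (hoff z hz hzp).2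
    obtain ⟨S', T', M', hS', hT', hST, hM', hM'u, hM'e⟩ := ih hLB hM2 hA2 hMA hAM
    have hqY : HolOn ℂ (q p) ((Y : Set R) \ B) := hqp.hol.mono sdiff_subset
    have hqY0 : ∀ z ∈ (Y : Set R) \ B, q p z ≠ 0 := fun z hz h0 =>
      hz.2 (by rw [hqp.only z hz.1 h0]; exact hpB)
    have hid : ∀ z ∈ (Y : Set R) \ B,
        ((1 - π) + (q p z)⁻¹ • π) * ((1 - π) + q p z • π) = 1 ∧
        ((1 - π) + q p z • π) * ((1 - π) + (q p z)⁻¹ • π) = 1 := by
      intro z hz
      have hqz := hqY0 z hz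
      have r1 : (1 - π) * π = 0 := by rw [sub_mul, one_mul, hπ, sub_self]
      have r2 : π * (1 - π) = 0 := by rw [mul_sub, mul_one, hπ, sub_self]
      have r3 : (1 - π) * (1 - π) = 1 - π := by
        rw [mul_sub, mul_one, r1, sub_zero]
      constructor
      · rw [add_mul, mul_add, mul_add, mul_smul_comm, smul_mul_assoc, smul_mul_assoc,
          mul_smul_comm, r1, r2, r3, hπ, smul_zero, smul_zero, smul_smul,
          inv_mul_cancel₀ hqz, one_smul, add_zero, zero_add, sub_add_cancel]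
      · rw [add_mul, mul_add, mul_add, mul_smul_comm, smul_mul_assoc, smul_mul_assoc,
          mul_smul_comm, r1, r2, r3, hπ, smul_zero, smul_zero, smul_smul,
          mul_inv_cancel₀ hqz, one_smul, add_zero, zero_add, sub_add_cancel]
    refine ⟨fun z => ((1 - π) + (q p z)⁻¹ • π) * S' z, fun z => T' z * ((1 - π) + q p z • π),
      M', ?_, ?_, ?_, hM', hM'u, ?_⟩
    · exact holOn_opMul (holOn_add (holOn_const _ _)
        (holOn_smul (holOn_inv hqY hqY0) (holOn_const _ _))) hS'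
    · exact holOn_opMul hT' (holOn_add (holOn_const _ _) (holOn_smul hqY (holOn_const _ _)))
    · intro z hz
      obtain ⟨i1, i2⟩ := hid z hz
      obtain ⟨j1, j2⟩ := hST z hz
      constructor
      · show ((1 - π) + (q p z)⁻¹ • π) * S' z * (T' z * ((1 - π) + q p z • π)) = 1
        rw [mul_assoc, ← mul_assoc (S' z), j1, one_mul, i1]
      · show T' z * ((1 - π) + q p z • π) * (((1 - π) + (q p z)⁻¹ • π) * S' z) = 1
        rw [mul_assoc, ← mul_assoc ((1 - π) + q p z • π), i2, one_mul, j2]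
    · intro z hz
      have hqz : q p z ≠ 0 := hqY0 z ⟨hVY hz.1, hz.2⟩
      show M' z = M z * (((1 - π) + (q p z)⁻¹ • π) * S' z)
      have e5 : M1 z = (q p z)⁻¹ • (M z * π) := by
        rw [hM1e z hz.1, smul_smul, inv_mul_cancel₀ hqz, one_smul]
      rw [hM'e z hz, e5, ← mul_assoc, mul_add, mul_smul_comm]

end Pool.Agent.W_4d259d_h41
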