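import Pool.Agent.W_4d259d_h41.SpA

/-!
# MP_4d259d_ag, block FR: local inverse of a spray near one point (section 10)

Proof.  Chart `e` of `R` at `z0`, chart `φ` of `X` at `f z0`.  The map
`Ψ (ζ, w) = (ζ, φ (s (e.symm ζ) w))` is complex differentiable near `(e z0, 0)` in `ℂ × E`, and its
derivative there is `(dζ, dw) ↦ (dζ, a dζ + L dw)` with `L = fderiv (w ↦ φ (s z0 w)) 0` invertible
(`sp_unit`), so it is invertible; `ApiC.inverse_function` gives the inverse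
`g (ζ, y) = (ζ, m ζ y)` on a ball; `l z x = m (e z) (φ x)`.  Injectivity: `Ψ` is injective near
`(e z0, 0)`.  Choose first `r`, then `Z`, `κ` small (continuity of `m`).
-/

noncomputable section

set_option linter.unusedSectionVars false

namespace Pool.Agent.W_4d259d_h41

open Set Filter Topology Manifold Metric TopologicalSpace
open scoped ContDiff
open Pool.Agent.W_4d259d_h46.Defs Pool.Agent.W_4d259d_h46 Pool.Agent.W_4d259d_h44

variable {R : Type*} [TopologicalSpace R] [T2Space R] [ChartedSpace ℂ R]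
  [IsManifold (modelWithCornersSelf ℂ ℂ) ω R]
variable {E : Type*} [NormedAddCommGroup E] [NormedSpace ℂ E] [FiniteDimensional ℂ E]
variable {X : Type*} [MetricSpace X] [ChartedSpace E X] [IsManifold (modelWithCornersSelf ℂ E) ω X]

/-- The domain of `(ζ, w) ↦ φ (s (e.symm ζ) w)` is open. -/
theorem lia_isOpen {W : Opens R} {δ : ℝ} {s : R → E → X}
    (hs : HolOn2 E s (W : Set R) (ball (0 : E) δ)) (e : OpenPartialHomeomorph R ℂ)
    (φ : OpenPartialHomeomorph X E) :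
    IsOpen {q : ℂ × E | q.1 ∈ e.target ∧ e.symm q.1 ∈ W ∧ q.2 ∈ ball (0 : E) δ ∧
      s (e.symm q.1) q.2 ∈ φ.source} := by
  rw [isOpen_iff_mem_nhds]
  rintro ⟨ζ, w⟩ ⟨h1, h2, h3, h4⟩
  have hc1 : ContinuousAt (fun q : ℂ × E => (e.symm q.1, q.2)) (ζ, w) := by
    refine ContinuousAt.prodMk ?_ continuousAt_snd
    exact ContinuousAt.comp (f := Prod.fst) (g := e.symm) (e.continuousAt_symm h1) continuousAt_fst
  have hopen : IsOpen ((W : Set R) ×ˢ ball (0 : E) δ) := W.2.prod isOpen_ball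
  have hc2 : ContinuousAt (fun q : R × E => s q.1 q.2) (e.symm ζ, w) :=
    hs.continuousOn.continuousAt (hopen.mem_nhds ⟨h2, h3⟩)
  have hc3 : ContinuousAt (fun q : ℂ × E => s (e.symm q.1) q.2) (ζ, w) :=
    ContinuousAt.comp (f := fun q : ℂ × E => (e.symm q.1, q.2)) (g := fun q : R × E => s q.1 q.2)
      hc2 hc1
  have k1 : ∀ᶠ q : ℂ × E in 𝓝 (ζ, w), q.1 ∈ e.target :=
    (continuous_fst.tendsto ((ζ, w) : ℂ × E)) (e.open_target.mem_nhds h1)
  have k2 : ∀ᶠ q : ℂ × E in 𝓝 (ζ, w), (e.symm q.1, q.2) ∈ ((W : Set R) ×ˢ ball (0 : E) δ) :=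
    hc1 (hopen.mem_nhds ⟨h2, h3⟩)
  have k3 : ∀ᶠ q : ℂ × E in 𝓝 (ζ, w), s (e.symm q.1) q.2 ∈ φ.source :=
    hc3 (φ.open_source.mem_nhds h4)
  filter_upwards [k1, k2, k3] with q m1 m2 m3
  exact ⟨m1, m2.1, m2.2, m3⟩

/-- `(ζ, w) ↦ φ (s (e.symm ζ) w)` is complex differentiable. -/
theorem lia_diff {W : Opens R} {δ : ℝ} {s : R → E → X}
    (hs : HolOn2 E s (W : Set R) (ball (0 : E) δ)) {e : OpenPartialHomeomorph R ℂ}
    (he : e ∈ RChart R) {φ : OpenPartialHomeomorph X E} (hφ : φ ∈ XChart E X) :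
    DifferentiableOn ℂ (fun q : ℂ × E => φ (s (e.symm q.1) q.2))
      {q : ℂ × E | q.1 ∈ e.target ∧ e.symm q.1 ∈ W ∧ q.2 ∈ ball (0 : E) δ ∧
        s (e.symm q.1) q.2 ∈ φ.source} := by
  rw [← mdifferentiableOn_iff_differentiableOn]
  have h1 : MDifferentiableOn (modelWithCornersSelf ℂ (ℂ × E)) (modelWithCornersSelf ℂ ℂ)
      (fun q : ℂ × E => e.symm q.1) {q : ℂ × E | q.1 ∈ e.target} := by
    refine MDifferentiableOn.comp (g := e.symm) (f := fun q : ℂ × E => q.1)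
      (chart_symm_hol he) ?_ (fun q hq => hq)
    exact differentiable_fst.mdifferentiable.mdifferentiableOn
  have h2 : MDifferentiableOn (modelWithCornersSelf ℂ (ℂ × E))
      ((modelWithCornersSelf ℂ ℂ).prod (modelWithCornersSelf ℂ E))
      (fun q : ℂ × E => (e.symm q.1, q.2)) {q : ℂ × E | q.1 ∈ e.target} :=
    h1.prodMk differentiable_snd.mdifferentiable.mdifferentiableOn
  have h3 := MDifferentiableOn.comp (g := fun q : R × E => s q.1 q.2)
    (f := fun q : ℂ × E => (e.symm q.1, q.2))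
    (u := ((W : Set R) ×ˢ ball (0 : E) δ))
    (s := {q : ℂ × E | q.1 ∈ e.target ∧ e.symm q.1 ∈ W ∧ q.2 ∈ ball (0 : E) δ ∧
        s (e.symm q.1) q.2 ∈ φ.source}) hs (h2.mono fun q hq => hq.1)
    (fun q hq => ⟨hq.2.1, hq.2.2.1⟩)
  exact MDifferentiableOn.comp (g := φ) (f := fun q : ℂ × E => s (e.symm q.1) q.2)
    ((contMDiffOn_of_mem_maximalAtlas hφ).mdifferentiableOn (by simp)) h3
    (fun q hq => hq.2.2.2)

/-- For every `ε` there are a neighbourhood `Z` of `z0` and `r ≤ ε`, `κ` such that for `z ∈ Z` the map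
`s z` is injective on the ball of radius `r` and `l z` is its inverse on `{dist x (f z0) < κ}`. -/
theorem locInv_point {W : Opens R} {f : R → X} (hf : HolOn E f W) {δ : ℝ} {s : R → E → X}
    (hs : IsSpray W f δ s) {z0 : R} (hz0 : z0 ∈ W) {ε : ℝ} (hε : 0 < ε) :
    ∃ (Z : Opens R) (r κ : ℝ) (l : R → X → E), z0 ∈ Z ∧ Z ≤ W ∧ 0 < r ∧ r ≤ ε ∧ r ≤ δ ∧ 0 < κ ∧
      MDifferentiableOn ((modelWithCornersSelf ℂ ℂ).prod (modelWithCornersSelf ℂ E))
        (modelWithCornersSelf ℂ E) (fun q : R × X => l q.1 q.2)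
        {q : R × X | q.1 ∈ Z ∧ dist q.2 (f z0) < κ} ∧
      (∀ z ∈ Z, ∀ x, dist x (f z0) < κ → ‖l z x‖ < r ∧ s z (l z x) = x) ∧
      (∀ z ∈ Z, ∀ w w' : E, ‖w‖ < r → ‖w'‖ < r → s z w = s z w' → w = w') := by
  have hEc : CompleteSpace E := FiniteDimensional.complete ℂ E
  have hδ := hs.pos
  set e := chartAt ℂ z0 with he
  set φ := chartAt E (f z0) with hφ
  have heR : e ∈ RChart R := IsManifold.chart_mem_maximalAtlas z0
  have hφX : φ ∈ XChart E X := IsManifold.chart_mem_maximalAtlas (f z0)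
  have hz0e : z0 ∈ e.source := mem_chart_source ℂ z0
  have hf0 : f z0 ∈ φ.source := mem_chart_source E (f z0)
  have hez : e.symm (e z0) = z0 := e.left_inv hz0e
  set Ω : Set (ℂ × E) := {q : ℂ × E | q.1 ∈ e.target ∧ e.symm q.1 ∈ W ∧ q.2 ∈ ball (0 : E) δ ∧
      s (e.symm q.1) q.2 ∈ φ.source} with hΩ
  have hΩo : IsOpen Ω := lia_isOpen hs.hol e φ
  have hψ : DifferentiableOn ℂ (fun q : ℂ × E => φ (s (e.symm q.1) q.2)) Ω :=
    lia_diff hs.hol heR hφX
  set ψ : ℂ × E → E := fun q => φ (s (e.symm q.1) q.2) with hψdef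
  have hx0 : ((e z0, 0) : ℂ × E) ∈ Ω := by
    refine ⟨e.map_source hz0e, ?_, mem_ball_self hδ, ?_⟩
    · show e.symm (e z0) ∈ W
      rw [hez]; exact hz0
    · show s (e.symm (e z0)) 0 ∈ φ.source
      rw [hez, hs.zero z0 hz0]; exact hf0
  -- the map Psi
  set Ψ : ℂ × E → ℂ × E := fun q => (q.1, ψ q) with hΨ
  have hΨd : DifferentiableOn ℂ Ψ Ω := differentiableOn_fst.prodMk hψ
  have hA : HasFDerivAt ψ (fderiv ℂ ψ (e z0, 0)) (e z0, 0) :=
    (hψ.differentiableAt (hΩo.mem_nhds hx0)).hasFDerivAt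
  set A := fderiv ℂ ψ (e z0, 0) with hAdef
  have hΨf : fderiv ℂ Ψ (e z0, 0) = (ContinuousLinearMap.fst ℂ ℂ E).prod A :=
    (hasFDerivAt_fst.prodMk hA).fderiv
  have hL := sp_unit hs hφX hz0 hf0
  have hAL : ∀ w : E, A (0, w) = fderiv ℂ (fun w => φ (s z0 w)) 0 w := by
    have h1 : HasFDerivAt (fun w : E => ((e z0, w) : ℂ × E))
        (ContinuousLinearMap.inr ℂ ℂ E) 0 := hasFDerivAt_prodMk_right (e z0) (0 : E)
    have h2 : HasFDerivAt (fun w : E => ψ (e z0, w)) (A.comp (ContinuousLinearMap.inr ℂ ℂ E)) 0 :=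
      HasFDerivAt.comp (g := ψ) (f := fun w : E => ((e z0, w) : ℂ × E)) (0 : E) hA h1
    have h3 : (fun w : E => ψ (e z0, w)) = fun w => φ (s z0 w) := by
      funext w
      simp only [hψdef, hez]
    rw [h3] at h2
    intro w
    rw [h2.fderiv]
    rfl
  set L := fderiv ℂ (fun w => φ (s z0 w)) 0 with hLdef
  have hLinj : ∀ w, L w = 0 → w = 0 := by
    intro w hw
    obtain ⟨u, hu⟩ := hL
    have h1 : (↑u⁻¹ * L : E →L[ℂ] E) = 1 := by rw [← hu]; exact u.inv_mul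
    have h2 : ((↑u⁻¹ : E →L[ℂ] E) * L) w = w := by rw [h1]; rfl
    rw [← h2]
    show (↑u⁻¹ : E →L[ℂ] E) (L w) = 0
    rw [hw, map_zero]
  have hker : LinearMap.ker ((ContinuousLinearMap.fst ℂ ℂ E).prod A : ℂ × E →ₗ[ℂ] ℂ × E) = ⊥ := by
    rw [LinearMap.ker_eq_bot']
    rintro ⟨a, w⟩ h
    have h1 : a = 0 := congrArg Prod.fst h
    have h2 : A (a, w) = 0 := congrArg Prod.snd h
    subst h1
    rw [hAL] at h2
    rw [hLinj w h2]
    rfl
  have hsurj : LinearMap.range ((ContinuousLinearMap.fst ℂ ℂ E).prod A : ℂ × E →ₗ[ℂ] ℂ × E)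
      = ⊤ := by
    rw [LinearMap.range_eq_top, ← LinearMap.injective_iff_surjective, ← LinearMap.ker_eq_bot]
    exact hker
  obtain ⟨r1, hr1, g, hgd, hg0, hg, r2, hr2, hg'⟩ := ApiC.inverse_function hΩo hΨd hx0
    (ContinuousLinearEquiv.ofBijective _ hker hsurj) (by
      rw [hΨf, ContinuousLinearEquiv.coe_ofBijective])
  have hΨ0 : Ψ (e z0, 0) = (e z0, φ (f z0)) := by
    simp only [hΨ, hψdef, hez, hs.zero z0 hz0]
  rw [hΨ0] at hgd hg0 hg hg'
  -- choice of r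
  set r := min ε (min δ r2) with hr
  have hr0 : 0 < r := lt_min hε (lt_min hδ hr2)
  have hrε : r ≤ ε := min_le_left _ _
  have hrδ : r ≤ δ := (min_le_right _ _).trans (min_le_left _ _)
  have hrr2 : r ≤ r2 := (min_le_right _ _).trans (min_le_right _ _)
  have hcg : ContinuousAt g (e z0, φ (f z0)) :=
    (hgd.differentiableAt (isOpen_ball.mem_nhds (mem_ball_self hr1))).continuousAt
  have hev : ∀ᶠ q in 𝓝 ((e z0, φ (f z0)) : ℂ × E), q ∈ ball ((e z0, φ (f z0)) : ℂ × E) r1 ∧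
      ‖(g q).2‖ < r := by
    have h1 : Tendsto (fun q => ‖(g q).2‖) (𝓝 ((e z0, φ (f z0)) : ℂ × E)) (𝓝 ‖(0 : E)‖) := by
      have h2 := (continuous_snd.norm.tendsto (g (e z0, φ (f z0)))).comp hcg.tendsto
      rw [hg0] at h2
      exact h2
    rw [norm_zero] at h1
    filter_upwards [ball_mem_nhds ((e z0, φ (f z0)) : ℂ × E) hr1, h1 (Iio_mem_nhds hr0)] with q a1 a2
    exact ⟨a1, a2⟩
  obtain ⟨ρ, hρ, hρb⟩ := Metric.eventually_nhds_iff_ball.1 hev
  -- choice of kappa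
  have hcφ : ContinuousAt φ (f z0) := φ.continuousAt hf0
  have hev2 : ∀ᶠ x in 𝓝 (f z0), x ∈ φ.source ∧ φ x ∈ ball (φ (f z0)) ρ := by
    filter_upwards [φ.open_source.mem_nhds hf0, hcφ (ball_mem_nhds _ hρ)] with x a1 a2
    exact ⟨a1, a2⟩
  obtain ⟨κ, hκ, hκb⟩ := Metric.eventually_nhds_iff_ball.1 hev2
  -- choice of Z
  have hZo : IsOpen (e.source ∩ e ⁻¹' ball (e z0) (min ρ r2)) :=
    e.continuousOn.isOpen_inter_preimage e.open_source isOpen_ball
  set Z : Opens R := ⟨(e.source ∩ e ⁻¹' ball (e z0) (min ρ r2)) ∩ W, hZo.inter W.2⟩ with hZ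
  have hZmem : ∀ z ∈ Z, z ∈ e.source ∧ dist (e z) (e z0) < min ρ r2 ∧ z ∈ W := by
    intro z hz
    exact ⟨hz.1.1, hz.1.2, hz.2⟩
  have hq : ∀ z ∈ Z, ∀ x, dist x (f z0) < κ →
      ((e z, φ x) : ℂ × E) ∈ ball ((e z0, φ (f z0)) : ℂ × E) ρ := by
    intro z hz x hx
    rw [mem_ball, Prod.dist_eq, max_lt_iff]
    exact ⟨(hZmem z hz).2.1.trans_le (min_le_left _ _), (hκb x hx).2⟩
  refine ⟨Z, r, κ, fun z x => (g (e z, φ x)).2, ?_, ?_, hr0, hrε, hrδ, hκ, ?_, ?_, ?_⟩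
  · refine ⟨⟨hz0e, ?_⟩, hz0⟩
    exact mem_ball_self (lt_min hρ hr2)
  · intro z hz
    exact hz.2
  · -- holomorphy
    rintro ⟨z, x⟩ ⟨hz, hx⟩
    simp only at hz hx
    apply MDifferentiableAt.mdifferentiableWithinAt
    have hzs := (hZmem z hz).1
    have hxs := (hκb x hx).1
    have hme : MDifferentiableAt (modelWithCornersSelf ℂ ℂ) (modelWithCornersSelf ℂ ℂ) e z :=
      mdifferentiableAt_atlas (chart_mem_atlas ℂ z0) hzs
    have hmφ : MDifferentiableAt (modelWithCornersSelf ℂ E) (modelWithCornersSelf ℂ E) φ x :=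
      mdifferentiableAt_atlas (chart_mem_atlas E (f z0)) hxs
    have hpair : MDifferentiableAt ((modelWithCornersSelf ℂ ℂ).prod (modelWithCornersSelf ℂ E))
        (modelWithCornersSelf ℂ (ℂ × E)) (fun q : R × X => (e q.1, φ q.2)) (z, x) := by
      refine MDifferentiableAt.prodMk_space ?_ ?_
      · exact MDifferentiableAt.comp (z, x) (hme : MDifferentiableAt _ _ e (Prod.fst (z, x)))
          mdifferentiableAt_fst
      · exact MDifferentiableAt.comp (z, x) (hmφ : MDifferentiableAt _ _ φ (Prod.snd (z, x)))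
          mdifferentiableAt_snd
    have hg2 : DifferentiableAt ℂ (fun q : ℂ × E => (g q).2) (e z, φ x) :=
      ((hgd.differentiableAt (isOpen_ball.mem_nhds (hρb _ (hq z hz x hx)).1))).snd
    exact MDifferentiableAt.comp (z, x) (g := fun q : ℂ × E => (g q).2)
      (f := fun q : R × X => (e q.1, φ q.2)) hg2.mdifferentiableAt hpair
  · intro z hz x hx
    obtain ⟨k1, k2⟩ := hρb _ (hq z hz x hx)
    refine ⟨k2, ?_⟩
    obtain ⟨⟨m1, m2, m3, m4⟩, m5⟩ := hg _ k1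
    have hg1 : (g (e z, φ x)).1 = e z := congrArg Prod.fst m5
    have hg2 : ψ (g (e z, φ x)) = φ x := congrArg Prod.snd m5
    have hzz : e.symm (e z) = z := e.left_inv (hZmem z hz).1
    rw [hg1, hzz] at m4
    have hg3 : φ (s z (g (e z, φ x)).2) = φ x := by
      refine Eq.trans ?_ hg2
      show φ (s z (g (e z, φ x)).2) = φ (s (e.symm (g (e z, φ x)).1) (g (e z, φ x)).2)
      rw [hg1, hzz]
    exact φ.injOn m4 (hκb x hx).1 hg3
  · intro z hz w w' hw hw' hww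
    have hzz : e.symm (e z) = z := e.left_inv (hZmem z hz).1
    have key : ∀ v : E, ‖v‖ < r → g (Ψ (e z, v)) = (e z, v) := by
      intro v hv
      refine (hg' (e z, v) ?_).2
      rw [mem_ball, Prod.dist_eq, max_lt_iff]
      refine ⟨(hZmem z hz).2.1.trans_le (min_le_right _ _), ?_⟩
      simp only [dist_zero_right]
      exact hv.trans_le hrr2
    have h1 : Ψ (e z, w) = Ψ (e z, w') := by
      refine Prod.ext rfl ?_
      show φ (s (e.symm (e z)) w) = φ (s (e.symm (e z)) w')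
      rw [hzz, hww]
    have h2 := key w hw
    rw [h1, key w' hw'] at h2
    exact (congrArg Prod.snd h2).symm

end Pool.Agent.W_4d259d_h41
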