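import Pool.Agent.W_4d259d_h41.FrDefs

/-!
# MP_4d259d_ag, block FR: basic facts on sprays in charts (section 9)

Proofs.  `sp_unit`: let `ψ` be the chart of `IsSpray.inv`; near `w = 0`
`φ (s z w) = (φ ∘ ψ⁻¹) (ψ (s z w))` and the derivative of the transition map `φ ∘ ψ⁻¹` at `ψ (f z)` is
invertible (its inverse is the derivative of `ψ ∘ φ⁻¹`), chain rule.
`sp_chart`: `{(z,w) ∈ W × ball 0 δ | s z w ∈ φ.source}` is open (continuity of `s`) and contains the
compact set `C × {0}`; tube lemma gives `U`, `δ'` with closure of `U` compact; the restricted map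
`φ ∘ s` is holomorphic (composition), continuous on a compact neighbourhood of `closure U × {w small}`,
so bounded after shrinking; `z ↦ fderiv (w ↦ φ (s z w)) 0` is holomorphic: in a chart of `R` the map
`(ζ, w) ↦ φ (s (e.symm ζ) w)` is complex differentiable on an open subset of `ℂ × E`, and the partial
derivative in `w` at `(ζ, 0)` is complex differentiable in `ζ` (`ApiC.differentiableOn_fderiv`).
`sp_close`: uniform continuity on a compact neighbourhood of `C × {0}` (or: compactness argument).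
-/

noncomputable section

set_option linter.unusedSectionVars false

namespace Pool.Agent.W_4d259d_h41

open Set Filter Topology Manifold Metric TopologicalSpace
open scoped ContDiff
open Pool.Agent.W_4d259d_h46.Defs Pool.Agent.W_4d259d_h46 Pool.Agent.W_4d259d_h44

variable {R : Type*} [TopologicalSpace R] [T2Space R] [ChartedSpace ℂ R]
  [IsManifold (modelWithCornersSelf ℂ ℂ) ω R]
variable {E : Type*} [NormedAddCommGroup E] [NormedSpace ℂ E] [FiniteDimensional ℂ E]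

section
variable {X : Type*} [TopologicalSpace X] [ChartedSpace E X]
  [IsManifold (modelWithCornersSelf ℂ E) ω X]

/-- The domain of `(ζ, w) ↦ φ (s (e.symm ζ) w)` is open. -/
theorem spa_isOpen {W : Opens R} {δ : ℝ} {s : R → E → X}
    (hs : HolOn2 E s (W : Set R) (ball (0 : E) δ)) (e : OpenPartialHomeomorph R ℂ)
    (φ : OpenPartialHomeomorph X E) :
    IsOpen {q : ℂ × E | q.1 ∈ e.target ∧ e.symm q.1 ∈ W ∧ q.2 ∈ ball (0 : E) δ ∧
      s (e.symm q.1) q.2 ∈ φ.source} := by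
  rw [isOpen_iff_mem_nhds]
  rintro ⟨ζ, w⟩ ⟨h1, h2, h3, h4⟩
  have hc1 : ContinuousAt (fun q : ℂ × E => (e.symm q.1, q.2)) (ζ, w) := by
    refine ContinuousAt.prodMk ?_ continuousAt_snd
    exact ContinuousAt.comp (f := Prod.fst) (g := e.symm) (e.continuousAt_symm h1) continuousAt_fst
  have hopen : IsOpen ((W : Set R) ×ˢ ball (0 : E) δ) := W.2.prod isOpen_ball
  have hc2 : ContinuousAt (fun q : R × E => s q.1 q.2) (e.symm ζ, w) :=
    hs.continuousOn.continuousAt (hopen.mem_nhds ⟨h2, h3⟩)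
  have hc3 : ContinuousAt (fun q : ℂ × E => s (e.symm q.1) q.2) (ζ, w) :=
    ContinuousAt.comp (f := fun q : ℂ × E => (e.symm q.1, q.2)) (g := fun q : R × E => s q.1 q.2)
      hc2 hc1
  have k1 : ∀ᶠ q : ℂ × E in 𝓝 (ζ, w), q.1 ∈ e.target :=
    (continuous_fst.tendsto ((ζ, w) : ℂ × E)) (e.open_target.mem_nhds h1)
  have k2 : ∀ᶠ q : ℂ × E in 𝓝 (ζ, w), (e.symm q.1, q.2) ∈ ((W : Set R) ×ˢ ball (0 : E) δ) :=
    hc1 (hopen.mem_nhds ⟨h2, h3⟩)
  have k3 : ∀ᶠ q : ℂ × E in 𝓝 (ζ, w), s (e.symm q.1) q.2 ∈ φ.source :=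
    hc3 (φ.open_source.mem_nhds h4)
  filter_upwards [k1, k2, k3] with q m1 m2 m3
  exact ⟨m1, m2.1, m2.2, m3⟩

/-- `(ζ, w) ↦ φ (s (e.symm ζ) w)` is complex differentiable. -/
theorem spa_diff {W : Opens R} {δ : ℝ} {s : R → E → X}
    (hs : HolOn2 E s (W : Set R) (ball (0 : E) δ)) {e : OpenPartialHomeomorph R ℂ}
    (he : e ∈ RChart R) {φ : OpenPartialHomeomorph X E} (hφ : φ ∈ XChart E X) :
    DifferentiableOn ℂ (fun q : ℂ × E => φ (s (e.symm q.1) q.2))
      {q : ℂ × E | q.1 ∈ e.target ∧ e.symm q.1 ∈ W ∧ q.2 ∈ ball (0 : E) δ ∧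
        s (e.symm q.1) q.2 ∈ φ.source} := by
  rw [← mdifferentiableOn_iff_differentiableOn]
  have h1 : MDifferentiableOn (modelWithCornersSelf ℂ (ℂ × E)) (modelWithCornersSelf ℂ ℂ)
      (fun q : ℂ × E => e.symm q.1) {q : ℂ × E | q.1 ∈ e.target} := by
    refine MDifferentiableOn.comp (g := e.symm) (f := fun q : ℂ × E => q.1)
      (chart_symm_hol he) ?_ (fun q hq => hq)
    exact differentiable_fst.mdifferentiable.mdifferentiableOn
  have h2 : MDifferentiableOn (modelWithCornersSelf ℂ (ℂ × E))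
      ((modelWithCornersSelf ℂ ℂ).prod (modelWithCornersSelf ℂ E))
      (fun q : ℂ × E => (e.symm q.1, q.2)) {q : ℂ × E | q.1 ∈ e.target} :=
    h1.prodMk differentiable_snd.mdifferentiable.mdifferentiableOn
  have h3 := MDifferentiableOn.comp (g := fun q : R × E => s q.1 q.2)
    (f := fun q : ℂ × E => (e.symm q.1, q.2))
    (u := ((W : Set R) ×ˢ ball (0 : E) δ))
    (s := {q : ℂ × E | q.1 ∈ e.target ∧ e.symm q.1 ∈ W ∧ q.2 ∈ ball (0 : E) δ ∧
        s (e.symm q.1) q.2 ∈ φ.source}) hs (h2.mono fun q hq => hq.1)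
    (fun q hq => ⟨hq.2.1, hq.2.2.1⟩)
  exact MDifferentiableOn.comp (g := φ) (f := fun q : ℂ × E => s (e.symm q.1) q.2)
    ((contMDiffOn_of_mem_maximalAtlas hφ).mdifferentiableOn (by simp)) h3
    (fun q hq => hq.2.2.2)

/-- The derivatives of the two transition maps are inverse to each other. -/
theorem spa_trans {φ ψ : OpenPartialHomeomorph X E} (hφ : φ ∈ XChart E X) (hψ : ψ ∈ XChart E X)
    {x : X} (hx : x ∈ φ.source) (hx' : x ∈ ψ.source) :
    DifferentiableAt ℂ (fun p => ψ (φ.symm p)) (φ x) ∧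
    fderiv ℂ (fun p => φ (ψ.symm p)) (ψ x) * fderiv ℂ (fun p => ψ (φ.symm p)) (φ x) = 1 := by
  have hmem1 : φ x ∈ (φ.symm.trans ψ).source := by
    refine ⟨φ.map_source hx, ?_⟩
    show φ.symm (φ x) ∈ ψ.source
    rw [φ.left_inv hx]; exact hx'
  have hmem2 : ψ x ∈ (ψ.symm.trans φ).source := by
    refine ⟨ψ.map_source hx', ?_⟩
    show ψ.symm (ψ x) ∈ φ.source
    rw [ψ.left_inv hx']; exact hx
  have h1 : DifferentiableAt ℂ (fun p => ψ (φ.symm p)) (φ x) :=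
    (transition_diff hφ hψ).differentiableAt ((φ.symm.trans ψ).open_source.mem_nhds hmem1)
  have h2 : DifferentiableAt ℂ (fun p => φ (ψ.symm p)) (ψ x) :=
    (transition_diff hψ hφ).differentiableAt ((ψ.symm.trans φ).open_source.mem_nhds hmem2)
  refine ⟨h1, ?_⟩
  have h3 : (fun p => ψ (φ.symm p)) (φ x) = ψ x := by
    show ψ (φ.symm (φ x)) = ψ x
    rw [φ.left_inv hx]
  have h2' : HasFDerivAt (fun p => φ (ψ.symm p)) (fderiv ℂ (fun p => φ (ψ.symm p)) (ψ x))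
      ((fun p => ψ (φ.symm p)) (φ x)) := by
    rw [h3]; exact h2.hasFDerivAt
  have h4 := HasFDerivAt.comp (φ x) h2' h1.hasFDerivAt
  have h5 : ((fun p => φ (ψ.symm p)) ∘ fun p => ψ (φ.symm p)) =ᶠ[𝓝 (φ x)] id := by
    filter_upwards [(φ.symm.trans ψ).open_source.mem_nhds hmem1] with p hp
    have hp1 : φ.symm p ∈ ψ.source := hp.2
    have hp2 : p ∈ φ.target := hp.1
    show φ (ψ.symm (ψ (φ.symm p))) = p
    rw [ψ.left_inv hp1, φ.right_inv hp2]
  have h6 := h4.congr_of_eventuallyEq h5.symm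
  exact h6.unique (hasFDerivAt_id _)

theorem sp_unit {W : Opens R} {f : R → X} {δ : ℝ} {s : R → E → X} (hs : IsSpray W f δ s)
    {φ : OpenPartialHomeomorph X E} (hφ : φ ∈ XChart E X) {z : R} (hz : z ∈ W)
    (hzφ : f z ∈ φ.source) : IsUnit (fderiv ℂ (fun w => φ (s z w)) 0) := by
  obtain ⟨ψ, hψ, hzψ, hu⟩ := hs.inv z hz
  have hs0 := hs.zero z hz
  -- the slice
  have h1 : MDifferentiableOn (modelWithCornersSelf ℂ E)
      ((modelWithCornersSelf ℂ ℂ).prod (modelWithCornersSelf ℂ E)) (fun w : E => (z, w))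
      (ball (0 : E) δ) := mdifferentiableOn_const.prodMk mdifferentiableOn_id
  have h2 : MDifferentiableOn (modelWithCornersSelf ℂ E) (modelWithCornersSelf ℂ E) (s z)
      (ball (0 : E) δ) := MDifferentiableOn.comp (g := fun q : R × E => s q.1 q.2)
    (f := fun w : E => (z, w)) (u := ((W : Set R) ×ˢ ball (0 : E) δ)) hs.hol h1
    (fun w hw => ⟨hz, hw⟩)
  have h0mem : (0 : E) ∈ ball (0 : E) δ := mem_ball_self hs.pos
  have h3 : MDifferentiableAt (modelWithCornersSelf ℂ E) (modelWithCornersSelf ℂ E) (s z) 0 :=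
    (h2 0 h0mem).mdifferentiableAt (isOpen_ball.mem_nhds h0mem)
  have hcs : Tendsto (s z) (𝓝 0) (𝓝 (f z)) := by
    have := h3.continuousAt.tendsto
    rwa [hs0] at this
  have hψm : MDifferentiableAt (modelWithCornersSelf ℂ E) (modelWithCornersSelf ℂ E) ψ
      (s z 0) := by
    rw [hs0]
    exact (((contMDiffOn_of_mem_maximalAtlas hψ).mdifferentiableOn (by simp)) (f z)
      hzψ).mdifferentiableAt (ψ.open_source.mem_nhds hzψ)
  have h4 : DifferentiableAt ℂ (fun w => ψ (s z w)) 0 :=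
    mdifferentiableAt_iff_differentiableAt.1 (MDifferentiableAt.comp (0 : E) hψm h3)
  obtain ⟨t1, t2⟩ := spa_trans hψ hφ hzψ hzφ
  obtain ⟨-, t4⟩ := spa_trans hφ hψ hzφ hzψ
  have hT : IsUnit (fderiv ℂ (fun p => φ (ψ.symm p)) (ψ (f z))) :=
    ⟨⟨_, _, t4, t2⟩, rfl⟩
  have h5 : HasFDerivAt (fun p => φ (ψ.symm p)) (fderiv ℂ (fun p => φ (ψ.symm p)) (ψ (f z)))
      ((fun w => ψ (s z w)) 0) := by
    show HasFDerivAt _ _ (ψ (s z 0))
    rw [hs0]; exact t1.hasFDerivAt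
  have h6 := HasFDerivAt.comp (0 : E) h5 h4.hasFDerivAt
  have h7 : (fun w => φ (s z w)) =ᶠ[𝓝 0] ((fun p => φ (ψ.symm p)) ∘ fun w => ψ (s z w)) := by
    filter_upwards [hcs (ψ.open_source.mem_nhds hzψ)] with w hw
    show φ (s z w) = φ (ψ.symm (ψ (s z w)))
    rw [ψ.left_inv hw]
  have h8 := h6.congr_of_eventuallyEq h7
  rw [h8.fderiv]
  exact hT.mul hu

theorem sp_mono {W W' : Opens R} {f : R → X} {δ δ' : ℝ} {s : R → E → X} (hs : IsSpray W f δ s)
    (h : W' ≤ W) (hδ : 0 < δ') (hδ' : δ' ≤ δ) : IsSpray W' f δ' s where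
  pos := hδ
  hol := MDifferentiableOn.mono hs.hol (prod_mono h (ball_subset_ball hδ'))
  zero := fun z hz => hs.zero z (h hz)
  inv := fun z hz => hs.inv z (h hz)

theorem sp_chart {W : Opens R} {f : R → X} {δ : ℝ} {s : R → E → X} (hs : IsSpray W f δ s)
    {φ : OpenPartialHomeomorph X E} (hφ : φ ∈ XChart E X) {C : Set R} (hC : IsCompact C)
    (hCW : C ⊆ W) (hCφ : ∀ z ∈ C, f z ∈ φ.source) :
    ∃ (U : Opens R) (δ' M : ℝ), C ⊆ U ∧ U ≤ W ∧ 0 < δ' ∧ δ' ≤ δ ∧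
      (∀ z ∈ U, ∀ w ∈ ball (0 : E) δ', s z w ∈ φ.source ∧ ‖φ (s z w)‖ ≤ M) ∧
      HolOn2 E (fun z w => φ (s z w)) (U : Set R) (ball (0 : E) δ') ∧
      HolOn (E →L[ℂ] E) (fun z => fderiv ℂ (fun w => φ (s z w)) 0) U ∧
      ∀ z ∈ U, IsUnit (fderiv ℂ (fun w => φ (s z w)) 0) := by
  have hδ := hs.pos
  have hopen : IsOpen ((W : Set R) ×ˢ ball (0 : E) δ) := W.2.prod isOpen_ball
  have hcs : ContinuousOn (fun q : R × E => s q.1 q.2) ((W : Set R) ×ˢ ball (0 : E) δ) :=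
    hs.hol.continuousOn
  -- a bound of `φ ∘ f` on `C`
  have hcf : ContinuousOn (fun z => φ (s z 0)) C := by
    have h1 : ContinuousOn (fun z : R => s z 0) C :=
      hcs.comp (f := fun z : R => (z, (0 : E))) (by fun_prop)
        (fun z hz => ⟨hCW hz, mem_ball_self hδ⟩)
    refine φ.continuousOn.comp h1 fun z hz => ?_
    rw [hs.zero z (hCW hz)]
    exact hCφ z hz
  obtain ⟨M0, hM0⟩ := (hC.image_of_continuousOn hcf).isBounded.exists_norm_le
  have hn : IsOpen (((W : Set R) ×ˢ ball (0 : E) δ) ∩ (fun q : R × E => s q.1 q.2) ⁻¹'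
      (φ.source ∩ φ ⁻¹' ball (0 : E) (M0 + 1))) :=
    hcs.isOpen_inter_preimage hopen (φ.isOpen_inter_preimage isOpen_ball)
  obtain ⟨u, v, hu, hv, hCu, h0v, huv⟩ := generalized_tube_lemma (s := C) (t := {(0 : E)}) hC
    isCompact_singleton hn (by
      rintro ⟨z, w⟩ ⟨hz, hw⟩
      rw [mem_singleton_iff] at hw
      simp only at hz hw
      subst hw
      refine ⟨⟨hCW hz, mem_ball_self hδ⟩, ?_, ?_⟩
      · show s z 0 ∈ φ.source
        rw [hs.zero z (hCW hz)]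
        exact hCφ z hz
      · show φ (s z 0) ∈ ball (0 : E) (M0 + 1)
        rw [mem_ball_zero_iff]
        have := hM0 _ (mem_image_of_mem _ hz)
        linarith)
  obtain ⟨δ1, hδ1, hδv⟩ := Metric.isOpen_iff.1 hv 0 (h0v rfl)
  have hU0 : ∀ z ∈ (⟨u, hu⟩ : Opens R) ⊓ W, ∀ w ∈ ball (0 : E) (min δ δ1),
      s z w ∈ φ.source ∧ ‖φ (s z w)‖ ≤ M0 + 1 := by
    intro z hz w hw
    have h1 := huv (show (z, w) ∈ u ×ˢ v from
      ⟨hz.1, hδv (ball_subset_ball (min_le_right _ _) hw)⟩)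
    refine ⟨h1.2.1, ?_⟩
    have h2 : φ (s z w) ∈ ball (0 : E) (M0 + 1) := h1.2.2
    rw [mem_ball_zero_iff] at h2
    exact h2.le
  have hunit : ∀ z ∈ (⟨u, hu⟩ : Opens R) ⊓ W, IsUnit (fderiv ℂ (fun w => φ (s z w)) 0) := by
    intro z hz
    refine sp_unit hs hφ hz.2 ?_
    rw [← hs.zero z hz.2]
    exact (hU0 z hz 0 (mem_ball_self (lt_min hδ hδ1))).1
  refine ⟨(⟨u, hu⟩ : Opens R) ⊓ W, min δ δ1, M0 + 1, fun z hz => ⟨hCu hz, hCW hz⟩,
    inf_le_right, lt_min hδ hδ1, min_le_left _ _, hU0, ?_, ?_, hunit⟩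
  · have h1 : MDifferentiableOn ((modelWithCornersSelf ℂ ℂ).prod (modelWithCornersSelf ℂ E))
        (modelWithCornersSelf ℂ E) (fun q : R × E => s q.1 q.2)
        ((((⟨u, hu⟩ : Opens R) ⊓ W : Opens R) : Set R) ×ˢ ball (0 : E) (min δ δ1)) :=
      MDifferentiableOn.mono hs.hol
        (prod_mono (fun z hz => hz.2) (ball_subset_ball (min_le_left _ _)))
    exact MDifferentiableOn.comp (g := φ) (f := fun q : R × E => s q.1 q.2)
      ((contMDiffOn_of_mem_maximalAtlas hφ).mdifferentiableOn (by simp)) h1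
      (fun q hq => (hU0 q.1 hq.1 q.2 hq.2).1)
  · refine holOn_of_local fun z0 hz0 => ?_
    set e := chartAt ℂ z0 with he
    have heR : e ∈ RChart R := IsManifold.chart_mem_maximalAtlas z0
    have hz0e : z0 ∈ e.source := mem_chart_source ℂ z0
    set Ω : Set (ℂ × E) := {q : ℂ × E | q.1 ∈ e.target ∧ e.symm q.1 ∈ W ∧
      q.2 ∈ ball (0 : E) δ ∧ s (e.symm q.1) q.2 ∈ φ.source} with hΩ
    have hΩo : IsOpen Ω := spa_isOpen hs.hol e φ
    have hψ : DifferentiableOn ℂ (fun q : ℂ × E => φ (s (e.symm q.1) q.2)) Ω :=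
      spa_diff hs.hol heR hφ
    have hψ' := ApiC.differentiableOn_fderiv hΩo hψ
    have hVo : IsOpen ((((⟨u, hu⟩ : Opens R) ⊓ W : Opens R) : Set R) ∩ e.source) :=
      ((⟨u, hu⟩ : Opens R) ⊓ W).2.inter e.open_source
    have hmemΩ : ∀ ζ ∈ e '' ((((⟨u, hu⟩ : Opens R) ⊓ W : Opens R) : Set R) ∩ e.source),
        ((ζ, 0) : ℂ × E) ∈ Ω := by
      rintro _ ⟨z, ⟨hz, hze⟩, rfl⟩
      refine ⟨e.map_source hze, ?_, mem_ball_self hδ, ?_⟩
      · show e.symm (e z) ∈ W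
        rw [e.left_inv hze]; exact hz.2
      · show s (e.symm (e z)) 0 ∈ φ.source
        rw [e.left_inv hze]
        exact (hU0 z hz 0 (mem_ball_self (lt_min hδ hδ1))).1
    refine ⟨(((⟨u, hu⟩ : Opens R) ⊓ W : Opens R) : Set R) ∩ e.source, hVo, ⟨hz0, hz0e⟩, ?_⟩
    rw [holOn_iff_inChart heR hVo inter_subset_right]
    have hcomp : DifferentiableOn ℂ (fun ζ : ℂ =>
        (fderiv ℂ (fun q : ℂ × E => φ (s (e.symm q.1) q.2)) (ζ, 0)).comp
          (ContinuousLinearMap.inr ℂ ℂ E))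
        (e '' ((((⟨u, hu⟩ : Opens R) ⊓ W : Opens R) : Set R) ∩ e.source)) := by
      have h1 : DifferentiableOn ℂ (fun ζ : ℂ =>
          fderiv ℂ (fun q : ℂ × E => φ (s (e.symm q.1) q.2)) (ζ, 0))
          (e '' ((((⟨u, hu⟩ : Opens R) ⊓ W : Opens R) : Set R) ∩ e.source)) :=
        hψ'.comp (f := fun ζ : ℂ => ((ζ, 0) : ℂ × E)) (by fun_prop) hmemΩ
      exact h1.clm_comp (differentiableOn_const _)
    refine hcomp.congr fun ζ hζ => ?_
    have h1 : HasFDerivAt (fun w : E => ((ζ, w) : ℂ × E))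
        (ContinuousLinearMap.inr ℂ ℂ E) 0 := hasFDerivAt_prodMk_right ζ (0 : E)
    have h2 : HasFDerivAt (fun w : E => φ (s (e.symm ζ) w))
        ((fderiv ℂ (fun q : ℂ × E => φ (s (e.symm q.1) q.2)) (ζ, 0)).comp
          (ContinuousLinearMap.inr ℂ ℂ E)) 0 :=
      HasFDerivAt.comp (g := fun q : ℂ × E => φ (s (e.symm q.1) q.2))
        (f := fun w : E => ((ζ, w) : ℂ × E)) (0 : E)
        (hψ.differentiableAt (hΩo.mem_nhds (hmemΩ ζ hζ))).hasFDerivAt h1
    exact h2.fderiv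

end

theorem sp_close {X : Type*} [MetricSpace X] [ChartedSpace E X]
    [IsManifold (modelWithCornersSelf ℂ E) ω X] {W : Opens R} {f : R → X} {δ : ℝ}
    {s : R → E → X} (hs : IsSpray W f δ s) {C : Set R} (hC : IsCompact C) (hCW : C ⊆ W) :
    ∀ ε > 0, ∃ δ' > 0, ∀ z ∈ C, ∀ α : E, ‖α‖ < δ' → dist (s z α) (f z) < ε := by
  intro ε hε
  have hδ := hs.pos
  have hopen : IsOpen ((W : Set R) ×ˢ ball (0 : E) δ) := W.2.prod isOpen_ball
  have hcs : ContinuousOn (fun q : R × E => s q.1 q.2) ((W : Set R) ×ˢ ball (0 : E) δ) :=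
    hs.hol.continuousOn
  have hc0 : ContinuousOn (fun q : R × E => s q.1 0) ((W : Set R) ×ˢ ball (0 : E) δ) :=
    hcs.comp (f := fun q : R × E => (q.1, (0 : E))) (by fun_prop)
      (fun q hq => ⟨hq.1, mem_ball_self hδ⟩)
  have hn : IsOpen (((W : Set R) ×ˢ ball (0 : E) δ) ∩
      (fun q : R × E => dist (s q.1 q.2) (s q.1 0)) ⁻¹' Iio ε) :=
    ContinuousOn.isOpen_inter_preimage (fun q hq => Filter.Tendsto.dist (hcs q hq) (hc0 q hq))
      hopen isOpen_Iio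
  obtain ⟨u, v, hu, hv, hCu, h0v, huv⟩ := generalized_tube_lemma (s := C) (t := {(0 : E)}) hC
    isCompact_singleton hn (by
      rintro ⟨z, w⟩ ⟨hz, hw⟩
      rw [mem_singleton_iff] at hw
      simp only at hz hw
      subst hw
      refine ⟨⟨hCW hz, mem_ball_self hδ⟩, ?_⟩
      show dist (s z 0) (s z 0) < ε
      rw [dist_self]; exact hε)
  obtain ⟨δ1, hδ1, hδv⟩ := Metric.isOpen_iff.1 hv 0 (h0v rfl)
  refine ⟨δ1, hδ1, fun z hz α hα => ?_⟩
  have h1 := huv (show (z, α) ∈ u ×ˢ v from ⟨hCu hz, hδv (mem_ball_zero_iff.2 hα)⟩)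
  have h2 : dist (s z α) (s z 0) < ε := h1.2
  rwa [hs.zero z (hCW hz)] at h2

end Pool.Agent.W_4d259d_h41
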