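import Pool.Agent.W_4d259d_h41.FrDefs

/-!
# MP_4d259d_ag, block FR: the nonlinear splitting with parameter (section 9)

Proof.  `SA`, `SB` from `split_fin` (values in `E`).  `Nop` = the Nemytskii operator of `ξ` on
`HB (WA ⊓ N) E` (`nem`), `res : HB WA E → HB (WA ⊓ N) E` (`exists_res`).  For `t ∈ E` small solve
`α = const t - SA (Nop (res α))` in `HB WA E`: `Φ t α` maps the closed ball of radius `2 τ` (small)
into itself and is a `1/2`-contraction for `‖t‖ < τ` (`nem_lip`: Lipschitz constant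
`4 C / δ² (‖α‖ + ‖α'‖) ‖SA‖`), complex differentiable in `(t, α)`; `par` gives `α(t)`, complex
differentiable in `t`; `α(0) = 0` by uniqueness; put `β(t) = const t - SB (Nop (res (α t)))`.
Holomorphy in `(z,t)`: `eval`.  Derivative at `t = 0`: `fderiv Nop 0 = 0` because
`fderiv (ξ z) 0 = 0`, so `fderiv α 0 = const`, `fderiv β 0 = const`; evaluate at `z`.
`β - α = SA y - SB y = y = ξ(·, α)` on `WA ⊓ N`.
-/

noncomputable section

set_option linter.unusedSectionVars false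

namespace Pool.Agent.W_4d259d_h41

open Set Filter Topology Manifold Metric TopologicalSpace
open scoped ContDiff
open Pool.Agent.W_4d259d_h46.Defs Pool.Agent.W_4d259d_h46 Pool.Agent.W_4d259d_h44

variable {R : Type*} [TopologicalSpace R] [T2Space R] [ChartedSpace ℂ R]
  [IsManifold (modelWithCornersSelf ℂ ℂ) ω R] [GoodSurface R]
variable {E : Type*} [NormedAddCommGroup E] [NormedSpace ℂ E] [FiniteDimensional ℂ E]

/-- The abstract fixed point problem in Banach spaces. -/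
theorem spSolve_fix {P YA YB Z : Type*} [NormedAddCommGroup P] [NormedSpace ℂ P]
    [NormedAddCommGroup YA] [NormedSpace ℂ YA] [CompleteSpace YA]
    [NormedAddCommGroup YB] [NormedSpace ℂ YB] [NormedAddCommGroup Z] [NormedSpace ℂ Z]
    (SA : Z →L[ℂ] YA) (SB : Z →L[ℂ] YB) (rs : YA →L[ℂ] Z) (hrs : ‖rs‖ ≤ 1)
    (cA : P →L[ℂ] YA) (hcA : ‖cA‖ ≤ 1) (cB : P →L[ℂ] YB) (hcB : ‖cB‖ ≤ 1)
    (Nop : Z → Z) {δ L η : ℝ} (hδ : 0 < δ) (hL : 0 ≤ L) (hη : 0 < η)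
    (hN : DifferentiableOn ℂ Nop (ball 0 δ)) (hN0 : Nop 0 = 0)
    (hN1 : fderiv ℂ Nop 0 = 0)
    (hNL : ∀ y y' : Z, ‖y‖ < δ → ‖y'‖ < δ →
      ‖Nop y - Nop y'‖ ≤ L * (‖y‖ + ‖y'‖) * ‖y - y'‖) :
    ∃ τ > 0, ∃ (a : P → YA) (b : P → YB), DifferentiableOn ℂ a (ball 0 τ) ∧
      DifferentiableOn ℂ b (ball 0 τ) ∧
      (∀ t ∈ ball (0 : P) τ, ‖a t‖ < η ∧ ‖a t‖ < δ ∧ ‖b t‖ < η ∧
        a t = cA t - SA (Nop (rs (a t))) ∧ b t = cB t - SB (Nop (rs (a t)))) ∧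
      a 0 = 0 ∧ b 0 = 0 ∧ fderiv ℂ a 0 = cA ∧ fderiv ℂ b 0 = cB := by
  set D := ‖SA‖ + ‖SB‖ + 1 with hD
  have hSA := norm_nonneg SA
  have hSB := norm_nonneg SB
  have hD1 : 1 ≤ D := by linarith
  have hD0 : 0 < D := by linarith
  -- the radius
  set ρ' := min (min δ η) (1 / (4 * (L + 1) * D)) with hρ'
  have hρ'0 : 0 < ρ' := lt_min (lt_min hδ hη) (by positivity)
  have hρ'δ : ρ' ≤ δ := (min_le_left _ _).trans (min_le_left _ _)
  have hρ'η : ρ' ≤ η := (min_le_left _ _).trans (min_le_right _ _)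
  have hρ'L : L * (2 * ρ') * D ≤ 1 / 2 := by
    have h1 : ρ' ≤ 1 / (4 * (L + 1) * D) := min_le_right _ _
    have h2 : ρ' * (4 * (L + 1) * D) ≤ 1 := by
      rwa [le_div_iff₀ (by positivity)] at h1
    have h3 : 0 ≤ ρ' * D := by positivity
    nlinarith
  have hrsle : ∀ y : YA, ‖rs y‖ ≤ ‖y‖ := by
    intro y
    calc ‖rs y‖ ≤ ‖rs‖ * ‖y‖ := rs.le_opNorm _
      _ ≤ 1 * ‖y‖ := mul_le_mul_of_nonneg_right hrs (norm_nonneg _)
      _ = ‖y‖ := one_mul _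
  have hcAle : ∀ t : P, ‖cA t‖ ≤ ‖t‖ := by
    intro t
    calc ‖cA t‖ ≤ ‖cA‖ * ‖t‖ := cA.le_opNorm _
      _ ≤ 1 * ‖t‖ := mul_le_mul_of_nonneg_right hcA (norm_nonneg _)
      _ = ‖t‖ := one_mul _
  have hcBle : ∀ t : P, ‖cB t‖ ≤ ‖t‖ := by
    intro t
    calc ‖cB t‖ ≤ ‖cB‖ * ‖t‖ := cB.le_opNorm _
      _ ≤ 1 * ‖t‖ := mul_le_mul_of_nonneg_right hcB (norm_nonneg _)
      _ = ‖t‖ := one_mul _
  have hρ : 0 ≤ ρ' / 2 := by linarith
  have hρρ' : ρ' / 2 < ρ' := by linarith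
  have hτ0 : 0 < ρ' / 4 := by linarith
  -- Lipschitz estimate
  have hlipN : ∀ y y' : YA, ‖y‖ < ρ' → ‖y'‖ < ρ' →
      ‖Nop (rs y) - Nop (rs y')‖ * D ≤ 1 / 2 * ‖y - y'‖ := by
    intro y y' hy hy'
    have h1 := hNL (rs y) (rs y') ((hrsle y).trans_lt (hy.trans_le hρ'δ))
      ((hrsle y').trans_lt (hy'.trans_le hρ'δ))
    have h2 : ‖rs y - rs y'‖ ≤ ‖y - y'‖ := by
      rw [← map_sub]
      exact hrsle _
    have h3 : ‖rs y‖ + ‖rs y'‖ ≤ 2 * ρ' := by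
      have := hrsle y
      have := hrsle y'
      linarith
    calc ‖Nop (rs y) - Nop (rs y')‖ * D ≤ (L * (‖rs y‖ + ‖rs y'‖) * ‖rs y - rs y'‖) * D :=
          mul_le_mul_of_nonneg_right h1 hD0.le
      _ ≤ (L * (2 * ρ') * ‖y - y'‖) * D := by
          refine mul_le_mul_of_nonneg_right ?_ hD0.le
          exact mul_le_mul (mul_le_mul_of_nonneg_left h3 hL) h2 (norm_nonneg _) (by positivity)
      _ = (L * (2 * ρ') * D) * ‖y - y'‖ := by ring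
      _ ≤ 1 / 2 * ‖y - y'‖ := mul_le_mul_of_nonneg_right hρ'L (norm_nonneg _)
  have hquadN : ∀ y : YA, ‖y‖ ≤ ρ' / 2 → ‖Nop (rs y)‖ * D ≤ ρ' / 8 * 2 := by
    intro y hy
    have h1 := hlipN y 0 (by linarith) (by rw [norm_zero]; exact hρ'0)
    rw [map_zero, hN0, sub_zero, sub_zero] at h1
    linarith
  have hSAle : ∀ z : Z, ‖SA z‖ ≤ ‖z‖ * D := by
    intro z
    calc ‖SA z‖ ≤ ‖SA‖ * ‖z‖ := SA.le_opNorm _
      _ ≤ D * ‖z‖ := mul_le_mul_of_nonneg_right (by linarith) (norm_nonneg _)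
      _ = ‖z‖ * D := mul_comm _ _
  have hSBle : ∀ z : Z, ‖SB z‖ ≤ ‖z‖ * D := by
    intro z
    calc ‖SB z‖ ≤ ‖SB‖ * ‖z‖ := SB.le_opNorm _
      _ ≤ D * ‖z‖ := mul_le_mul_of_nonneg_right (by linarith) (norm_nonneg _)
      _ = ‖z‖ * D := mul_comm _ _
  have hNrs : DifferentiableOn ℂ (fun y : YA => Nop (rs y)) (ball 0 ρ') := by
    refine hN.comp rs.differentiable.differentiableOn ?_
    intro y hy
    rw [mem_ball_zero_iff] at hy ⊢
    exact (hrsle y).trans_lt (hy.trans_le hρ'δ)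
  obtain ⟨a, ha1, ha2, ha3⟩ := par (P := P) (Y := YA) (T := ball (0 : P) (ρ' / 4)) isOpen_ball
    hρ hρρ' (Φ := fun t y => cA t - SA (Nop (rs y))) (by
      intro t ht y hy
      rw [mem_ball_zero_iff] at ht
      calc ‖cA t - SA (Nop (rs y))‖ ≤ ‖cA t‖ + ‖SA (Nop (rs y))‖ := norm_sub_le _ _
        _ ≤ ρ' / 4 + ρ' / 8 * 2 :=
            add_le_add ((hcAle t).trans ht.le) ((hSAle _).trans (hquadN y hy))
        _ = ρ' / 2 := by ring)
    (by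
      intro t _ y y' hy hy'
      have e1 : cA t - SA (Nop (rs y)) - (cA t - SA (Nop (rs y'))) =
          -(SA (Nop (rs y) - Nop (rs y'))) := by
        rw [map_sub]
        abel
      rw [e1, norm_neg]
      exact (hSAle _).trans (hlipN y y' hy hy'))
    (by
      refine DifferentiableOn.sub ?_ ?_
      · exact (cA.differentiable.comp differentiable_fst).differentiableOn
      · refine SA.differentiable.comp_differentiableOn ?_
        refine hNrs.comp (differentiable_snd.differentiableOn) ?_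
        intro q hq
        exact hq.2)
  have h0T : (0 : P) ∈ ball (0 : P) (ρ' / 4) := mem_ball_self hτ0
  have haρ : ∀ t ∈ ball (0 : P) (ρ' / 4), ‖a t‖ < ρ' := fun t ht =>
    lt_of_le_of_lt (ha1 t ht).1 hρρ'
  have ha0 : a 0 = 0 := by
    symm
    refine ha3 0 h0T 0 (by rw [norm_zero]; exact hρ) ?_
    rw [map_zero, map_zero, hN0, map_zero, sub_zero]
  have hNa : DifferentiableOn ℂ (fun t => Nop (rs (a t))) (ball (0 : P) (ρ' / 4)) := by
    refine hNrs.comp ha2 ?_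
    intro t ht
    rw [mem_ball_zero_iff]
    exact haρ t ht
  have hderN : HasFDerivAt (fun t => Nop (rs (a t))) (0 : P →L[ℂ] Z) 0 := by
    have h1 : HasFDerivAt Nop (0 : Z →L[ℂ] Z) (rs (a 0)) := by
      rw [ha0, map_zero, ← hN1]
      exact (hN.differentiableAt (isOpen_ball.mem_nhds (mem_ball_self hδ))).hasFDerivAt
    have h2 : HasFDerivAt a (fderiv ℂ a 0) 0 :=
      (ha2.differentiableAt (isOpen_ball.mem_nhds h0T)).hasFDerivAt
    have h3 := h1.comp (0 : P) (rs.hasFDerivAt.comp (0 : P) h2)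
    rw [ContinuousLinearMap.zero_comp] at h3
    exact h3
  refine ⟨ρ' / 4, hτ0, a, fun t => cB t - SB (Nop (rs (a t))), ha2, ?_, ?_, ha0, ?_, ?_, ?_⟩
  · exact (cB.differentiable.differentiableOn).sub (SB.differentiable.comp_differentiableOn hNa)
  · intro t ht
    have ht' := ht
    rw [mem_ball_zero_iff] at ht'
    refine ⟨(haρ t ht).trans_le hρ'η, (haρ t ht).trans_le hρ'δ, ?_, (ha1 t ht).2.symm, rfl⟩
    calc ‖cB t - SB (Nop (rs (a t)))‖ ≤ ‖cB t‖ + ‖SB (Nop (rs (a t)))‖ := norm_sub_le _ _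
      _ ≤ ρ' / 4 + ρ' / 8 * 2 :=
          add_le_add ((hcBle t).trans ht'.le) ((hSBle _).trans (hquadN _ (ha1 t ht).1))
      _ < η := by linarith
  · simp only
    rw [ha0, map_zero, map_zero, hN0, map_zero, sub_zero]
  · have h1 : HasFDerivAt (fun t => cA t - SA (Nop (rs (a t)))) (cA - SA.comp (0 : P →L[ℂ] Z)) 0 :=
      cA.hasFDerivAt.sub (SA.hasFDerivAt.comp (0 : P) hderN)
    rw [ContinuousLinearMap.comp_zero, sub_zero] at h1
    have h2 : a =ᶠ[𝓝 0] fun t => cA t - SA (Nop (rs (a t))) := by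
      filter_upwards [isOpen_ball.mem_nhds h0T] with t ht
      exact (ha1 t ht).2.symm
    exact (h1.congr_of_eventuallyEq h2).fderiv
  · have h1 : HasFDerivAt (fun t => cB t - SB (Nop (rs (a t)))) (cB - SB.comp (0 : P →L[ℂ] Z)) 0 :=
      cB.hasFDerivAt.sub (SB.hasFDerivAt.comp (0 : P) hderN)
    rw [ContinuousLinearMap.comp_zero, sub_zero] at h1
    exact h1.fderiv

/-- derivative of an evaluation -/
theorem spSolve_eval {U : Opens R} {P : Type*} [NormedAddCommGroup P] [NormedSpace ℂ P]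
    {a : P → HB U P} {T : Set P} (hT : IsOpen T) (h0 : (0 : P) ∈ T) (ha : DifferentiableOn ℂ a T)
    {c : P →L[ℂ] HB U P} (hc : ∀ v, ∀ z ∈ U, (c v).fn z = v) (h1 : fderiv ℂ a 0 = c) {z : R}
    (hz : z ∈ U) : fderiv ℂ (fun t => (a t).fn z) 0 = 1 := by
  have h2 : HasFDerivAt a c 0 := by
    rw [← h1]
    exact (ha.differentiableAt (hT.mem_nhds h0)).hasFDerivAt
  have h3 : HasFDerivAt (fun t => (a t).fn z) ((evL z : HB U P →L[ℂ] P).comp c) 0 :=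
    (evL z : HB U P →L[ℂ] P).hasFDerivAt.comp (0 : P) h2
  rw [h3.fderiv]
  ext v
  exact hc v z hz

theorem sp_solve {e : OpenPartialHomeomorph R ℂ} (he : e ∈ DChart R) (N1 N WA : Opens R)
    (h1 : closure (N1 : Set R) ⊆ N) (h2 : closure (N : Set R) ⊆ unitOf e)
    (h3 : IsCompact (closure (WA : Set R))) {δ C : ℝ} (hδ : 0 < δ) {ξ : R → E → E}
    (hξ : HolOn2 E ξ (WA ⊓ N : Opens R) (ball 0 δ))
    (hC : ∀ z ∈ WA ⊓ N, ∀ α ∈ ball (0 : E) δ, ‖ξ z α‖ ≤ C)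
    (h0 : ∀ z ∈ WA ⊓ N, ξ z 0 = 0 ∧ fderiv ℂ (ξ z) 0 = 0) {η : ℝ} (hη : 0 < η) :
    ∃ τ > 0, ∃ α β : R → E → E, HolOn2 E α (WA : Set R) (ball 0 τ) ∧
      HolOn2 E β (N1 ⊔ (WA ⊓ N) : Opens R) (ball 0 τ) ∧
      (∀ z ∈ WA, ∀ t ∈ ball (0 : E) τ, ‖α z t‖ < η ∧ ‖α z t‖ < δ) ∧
      (∀ z ∈ (N1 ⊔ (WA ⊓ N) : Opens R), ∀ t ∈ ball (0 : E) τ, ‖β z t‖ < η) ∧
      (∀ z ∈ WA, α z 0 = 0 ∧ fderiv ℂ (α z) 0 = 1) ∧
      (∀ z ∈ (N1 ⊔ (WA ⊓ N) : Opens R), β z 0 = 0 ∧ fderiv ℂ (β z) 0 = 1) ∧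
      ∀ z ∈ WA ⊓ N, ∀ t ∈ ball (0 : E) τ, β z t = α z t + ξ z (α z t) := by
  have hEc : CompleteSpace E := FiniteDimensional.complete ℂ E
  obtain ⟨SA, SB, hS⟩ := split_fin (F := E) he N1 N WA h1 h2 h3
  obtain ⟨rs, hrs1, hrs⟩ := exists_res (F := E) (inf_le_left : WA ⊓ N ≤ WA)
  obtain ⟨cA, hcA1, hcA⟩ := exists_const (F := E) (U := WA)
  obtain ⟨cB, hcB1, hcB⟩ := exists_const (F := E) (U := N1 ⊔ (WA ⊓ N))
  have hM : ∀ z ∈ WA ⊓ N, ∀ w ∈ ball (0 : E) δ, ‖ξ z w‖ ≤ max C 0 := fun z hz w hw =>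
    (hC z hz w hw).trans (le_max_left _ _)
  have hδ2 : δ / 2 < δ := by linarith
  obtain ⟨Nop, hN1, hN2, hN3⟩ := nem (U := WA ⊓ N) (F := E) hδ2 hξ hM
  have hnl := nem_lip (U := WA ⊓ N) (F := E) hξ hM (fun z hz => (h0 z hz).1)
    (fun z hz => (h0 z hz).2)
  have hC0 : 0 ≤ max C 0 := le_max_right _ _
  have hL : 0 ≤ 4 * max C 0 / δ ^ 2 := by positivity
  have h00 : ‖(0 : HB (WA ⊓ N) E)‖ < δ / 2 := by
    rw [norm_zero]
    linarith
  have hNop0 : Nop 0 = 0 := by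
    apply HB.ext'
    intro z hz
    rw [hN1 0 h00 z hz, HB.fn_zero, (h0 z hz).1]
  have hNop1 : fderiv ℂ Nop 0 = 0 := by
    ext1 β
    apply HB.ext'
    intro z hz
    rw [hN3 0 h00 β z hz, HB.fn_zero, (h0 z hz).2]
    show (0 : E) = (0 : HB (WA ⊓ N) E).fn z
    rw [HB.fn_zero]
  have hNL : ∀ y y' : HB (WA ⊓ N) E, ‖y‖ < δ / 2 → ‖y'‖ < δ / 2 →
      ‖Nop y - Nop y'‖ ≤ 4 * max C 0 / δ ^ 2 * (‖y‖ + ‖y'‖) * ‖y - y'‖ := by
    intro y y' hy hy'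
    refine HB.norm_le_of (by positivity) ?_
    intro z hz
    rw [HB.fn_sub, hN1 y hy z hz, hN1 y' hy' z hz]
    have a1 := y.fn_le z
    have a2 := y'.fn_le z
    have a3 := (y - y').fn_le z
    rw [HB.fn_sub] at a3
    refine (hnl z hz _ _ (a1.trans_lt hy) (a2.trans_lt hy')).trans ?_
    refine mul_le_mul (mul_le_mul_of_nonneg_left (add_le_add a1 a2) hL) a3 (norm_nonneg _) ?_
    positivity
  obtain ⟨τ, hτ, a, b, ha, hb, hab, ha0, hb0, ha1, hb1⟩ := spSolve_fix SA SB rs hrs1 cA hcA1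
    cB hcB1 Nop (by linarith : 0 < δ / 2) hL hη hN2 hNop0 hNop1 hNL
  have h0τ : (0 : E) ∈ ball (0 : E) τ := mem_ball_self hτ
  refine ⟨τ, hτ, fun z t => (a t).fn z, fun z t => (b t).fn z, eval isOpen_ball ha,
    eval isOpen_ball hb, ?_, ?_, ?_, ?_, ?_⟩
  · intro z _ t ht
    obtain ⟨h4, h5, -⟩ := hab t ht
    have h6 := (a t).fn_le z
    exact ⟨h6.trans_lt h4, h6.trans_lt (h5.trans hδ2)⟩
  · intro z _ t ht
    obtain ⟨-, -, h4, -⟩ := hab t ht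
    exact ((b t).fn_le z).trans_lt h4
  · intro z hz
    refine ⟨?_, ?_⟩
    · show (a 0).fn z = 0
      rw [ha0, HB.fn_zero]
    · exact spSolve_eval isOpen_ball h0τ ha hcA ha1 hz
  · intro z hz
    refine ⟨?_, ?_⟩
    · show (b 0).fn z = 0
      rw [hb0, HB.fn_zero]
    · exact spSolve_eval isOpen_ball h0τ hb hcB hb1 hz
  · intro z hz t ht
    obtain ⟨-, h5, -, h6, h7⟩ := hab t ht
    have hzA : z ∈ WA := hz.1
    have hzB : z ∈ N1 ⊔ (WA ⊓ N) := Or.inr hz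
    have h8 : ‖rs (a t)‖ < δ / 2 := by
      refine lt_of_le_of_lt ?_ h5
      calc ‖rs (a t)‖ ≤ ‖rs‖ * ‖a t‖ := rs.le_opNorm _
        _ ≤ 1 * ‖a t‖ := mul_le_mul_of_nonneg_right hrs1 (norm_nonneg _)
        _ = ‖a t‖ := one_mul _
    have e1 : (a t).fn z = t - (SA (Nop (rs (a t)))).fn z := by
      conv_lhs => rw [h6]
      rw [HB.fn_sub, hcA t z hzA]
    have e2 : (b t).fn z = t - (SB (Nop (rs (a t)))).fn z := by
      rw [h7, HB.fn_sub, hcB t z hzB]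
    have e3 : (Nop (rs (a t))).fn z = ξ z ((a t).fn z) := by
      rw [hN1 _ h8 z hz, hrs _ z hz]
    have e4 := hS (Nop (rs (a t))) z hz
    show (b t).fn z = (a t).fn z + ξ z ((a t).fn z)
    rw [← e3, e4, e2]
    conv_rhs => rw [e1]
    abel

end Pool.Agent.W_4d259d_h41
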