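import Pool.Agent.W_4d259d_h41.SpTrans
import Pool.Agent.W_4d259d_h41.SpSolve
import Pool.Agent.W_4d259d_h87.DCh

/-!
# MP_4d259d_ag, block FR: extension of a spray over one bump, disc charts (section 9)

Proof of `spray_step`.  Choose `WA` open, `A ⊆ WA`, `closure WA` compact, `closure WA ⊆ W0`.
`trans_of_spray` gives `δ, C, s, MB, ξ`.  `η > 0` with: for `z ∈ N1` and `‖β‖ < η` the point
`φ (f z) + MB z β` lies in `φ.target` (`φ (f (closure N1))` is compact in the open set `φ.target`,
`MB` bounded by `C`).  `sp_solve` with this `η` gives `τ, α, β`.  `W' = WA ⊔ N1`,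
`s' z t = s z (α z t)` for `z ∈ WA`, `= φ.symm (φ (f z) + MB z (β z t))` for `z ∈ N1 \ WA`; both formulas
agree for `z ∈ WA ∩ N1 ⊆ WA ⊓ N` (`φ (s z α) = φ (f z) + MB z (α + ξ z α)`, `s z α ∈ φ.source`).
Holomorphic on `WA × ball` (`hol2_comp`) and on `N1 × ball` (composition with `φ.symm`), hence on the
union (open cover).  `s' z 0 = f z`.  Invertible derivative: on `WA`: `fderiv (φ' ∘ s z) 0 ∘ 1`; on
`N1`: `MB z ∘ 1` in the chart `φ`.

Proof of `exists_bump`: let `e0` be the chart at `z0`; `e z = c (e0 z - e0 z0)` restricted, `c` real,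
large: `closedBall 0 3 ⊆ e.target` (an affine change of coordinates keeps the maximal atlas) and
`e.symm '' closedBall 0 1 ⊆ O`; `N = e.symm '' ball 0 (3/4)`, `N1 = e.symm '' ball 0 (1/2)`,
`B = e.symm '' closedBall 0 (1/4)`.
-/

noncomputable section

set_option linter.unusedSectionVars false

namespace Pool.Agent.W_4d259d_h41

open Set Filter Topology Manifold Metric TopologicalSpace
open scoped ContDiff
open Pool.Agent.W_4d259d_h46.Defs Pool.Agent.W_4d259d_h46 Pool.Agent.W_4d259d_h44

variable {R : Type*} [TopologicalSpace R] [T2Space R] [ChartedSpace ℂ R]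
  [IsManifold (modelWithCornersSelf ℂ ℂ) ω R]

/-- Small bumps around every point. -/
theorem exists_bump {z0 : R} {O : Set R} (hO : O ∈ 𝓝 z0) :
    ∃ e ∈ DChart R, ∃ (N1 N : Opens R) (B : Set R), IsCompact B ∧ z0 ∈ interior B ∧
      B ⊆ N1 ∧ closure (N1 : Set R) ⊆ N ∧ closure (N : Set R) ⊆ unitOf e ∧
      closure (N : Set R) ⊆ O := by
  obtain ⟨e, he, hsO, hz0, hez0⟩ := W_4d259d_h87.exists_dchart0 hO
  have ht : closedBall (0 : ℂ) 3 ⊆ e.target := he.2
  have hc : ∀ r : ℝ, r ≤ 3 → closedBall (0 : ℂ) r ⊆ e.target := fun r hr =>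
    (closedBall_subset_closedBall hr).trans ht
  have hb : ∀ r : ℝ, r ≤ 3 → ball (0 : ℂ) r ⊆ e.target := fun r hr =>
    ball_subset_closedBall.trans (hc r hr)
  have hz : z0 = e.symm 0 := by rw [← hez0, e.left_inv hz0]
  refine ⟨e, he, ⟨e.symm '' ball 0 (1 / 2), W_4d259d_h87.symm_isOpen (hb _ (by norm_num))⟩,
    ⟨e.symm '' ball 0 (3 / 4), W_4d259d_h87.symm_isOpen (hb _ (by norm_num))⟩,
    e.symm '' closedBall 0 (1 / 4), W_4d259d_h87.symm_isCompact (hc _ (by norm_num)),
    ?_, ?_, ?_, ?_, ?_⟩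
  · refine mem_interior.2 ⟨e.symm '' ball 0 (1 / 4), image_mono ball_subset_closedBall,
      W_4d259d_h87.symm_isOpen (hb _ (by norm_num)), ?_⟩
    rw [hz]
    exact mem_image_of_mem _ (mem_ball_self (by norm_num))
  · exact image_mono (closedBall_subset_ball (by norm_num))
  · exact (W_4d259d_h87.symm_closure (hc _ (by norm_num))).trans
      (image_mono (closedBall_subset_ball (by norm_num)))
  · exact (W_4d259d_h87.symm_closure (hc _ (by norm_num))).trans
      (image_mono (closedBall_subset_ball (by norm_num)))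
  · refine (W_4d259d_h87.symm_closure (hc _ (by norm_num))).trans ?_
    rintro _ ⟨ζ, hζ, rfl⟩
    exact hsO (e.map_target (hc (3 / 4) (by norm_num) hζ))

variable [GoodSurface R]
variable {E : Type*} [NormedAddCommGroup E] [NormedSpace ℂ E] [FiniteDimensional ℂ E]
variable {X : Type*} [MetricSpace X] [ChartedSpace E X] [IsManifold (modelWithCornersSelf ℂ E) ω X]

theorem spray_step {U : Opens R} {f : R → X} (hf : HolOn E f U) {A : Set R} (hA : IsCompact A)
    {W0 : Opens R} (hAW : A ⊆ W0) (hWU : W0 ≤ U) {δ0 : ℝ} {s0 : R → E → X}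
    (hs : IsSpray W0 f δ0 s0) {e : OpenPartialHomeomorph R ℂ} (he : e ∈ DChart R)
    {N1 N : Opens R} (h1 : closure (N1 : Set R) ⊆ N) (h2 : closure (N : Set R) ⊆ unitOf e)
    (hNU : closure (N : Set R) ⊆ U) {φ : OpenPartialHomeomorph X E} (hφ : φ ∈ XChart E X)
    (hfφ : ∀ z ∈ closure (N : Set R), f z ∈ φ.source) :
    ∃ (W' : Opens R) (δ' : ℝ) (s' : R → E → X), A ∪ N1 ⊆ W' ∧ W' ≤ U ∧ IsSpray W' f δ' s' := by
  classical
  have hLC : LocallyCompactSpace R := ChartedSpace.locallyCompactSpace ℂ R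
  have hN1N : (N1 : Set R) ⊆ N := subset_closure.trans h1
  have hNcl : (N : Set R) ⊆ closure (N : Set R) := subset_closure
  obtain ⟨WA0, hWAo, hAWA, hWAcl, hWAc⟩ :=
    exists_open_between_and_isCompact_closure hA W0.isOpen hAW
  obtain ⟨WA, hWAe⟩ : ∃ WA : Opens R, (WA : Set R) = WA0 := ⟨⟨WA0, hWAo⟩, rfl⟩
  rw [← hWAe] at hAWA hWAcl hWAc
  have hWAW0 : (WA : Set R) ⊆ W0 := subset_closure.trans hWAcl
  obtain ⟨δ, C, s, MB, ξ, hspray, -, hMB, hMBb, hξ, hξC, hξ0, hφs⟩ :=
    trans_of_spray (holOn_mono hf hWU) hs WA N1 N hWAc hWAcl he h1 h2 hφ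
      (fun z hz => hfφ z hz.2)
  -- the compact set `φ (f (closure N1))`
  have ht : closedBall (0 : ℂ) 1 ⊆ e.target :=
    (closedBall_subset_closedBall (by norm_num)).trans he.2
  have hN1c : IsCompact (closure (N1 : Set R)) := by
    refine (W_4d259d_h87.symm_isCompact ht).of_isClosed_subset isClosed_closure ?_
    exact h1.trans ((hNcl.trans h2).trans (image_mono ball_subset_closedBall))
  have hN1U : closure (N1 : Set R) ⊆ U := h1.trans (hNcl.trans hNU)
  have hN1φ : ∀ z ∈ closure (N1 : Set R), f z ∈ φ.source := fun z hz => hfφ z (hNcl (h1 hz))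
  have hφf : ContinuousOn (fun z => φ (f z)) (closure (N1 : Set R)) :=
    φ.continuousOn.comp (hf.continuousOn.mono hN1U) hN1φ
  have hKc : IsCompact ((fun z => φ (f z)) '' closure (N1 : Set R)) := hN1c.image_of_continuousOn hφf
  obtain ⟨r, hr, hthick⟩ := hKc.exists_thickening_subset_open φ.open_target (by
    rintro _ ⟨z, hz, rfl⟩
    exact φ.map_source (hN1φ z hz))
  have hη : 0 < r / (|C| + 1) := by positivity
  obtain ⟨τ, hτ, α, β, hα, hβ, hαb, hβb, hα0, hβ0, hαβ⟩ :=
    sp_solve he N1 N WA h1 h2 hWAc hspray.pos hξ hξC hξ0 hη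
  have hN1' : ∀ z ∈ N1, z ∈ (N1 ⊔ (WA ⊓ N) : Opens R) := fun z hz => Or.inl hz
  have hin : ∀ z ∈ N1, ∀ t ∈ ball (0 : E) τ, φ (f z) + MB z (β z t) ∈ φ.target := by
    intro z hz t ht'
    apply hthick
    rw [mem_thickening_iff]
    refine ⟨φ (f z), mem_image_of_mem _ (subset_closure hz), ?_⟩
    rw [dist_eq_norm, add_sub_cancel_left]
    have e1 : ‖MB z (β z t)‖ ≤ C * ‖β z t‖ :=
      ((MB z).le_opNorm _).trans
        (mul_le_mul_of_nonneg_right (hMBb z (hN1' z hz)).1 (norm_nonneg _))
    have e2 : C * ‖β z t‖ ≤ |C| * ‖β z t‖ :=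
      mul_le_mul_of_nonneg_right (le_abs_self C) (norm_nonneg _)
    have e3 := hβb z (hN1' z hz) t ht'
    have e4 : |C| * ‖β z t‖ ≤ |C| * (r / (|C| + 1)) :=
      mul_le_mul_of_nonneg_left e3.le (abs_nonneg _)
    have e5 : |C| * (r / (|C| + 1)) < r := by
      rw [mul_div_assoc', div_lt_iff₀ (by positivity)]
      nlinarith [abs_nonneg C]
    linarith
  -- the new spray
  obtain ⟨s', hs'⟩ : ∃ s' : R → E → X, s' = fun z t =>
      if z ∈ WA then s z (α z t) else φ.symm (φ (f z) + MB z (β z t)) := ⟨_, rfl⟩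
  have hsA : ∀ z ∈ WA, ∀ t, s' z t = s z (α z t) := fun z hz t => by
    rw [hs']; exact if_pos hz
  have hsN : ∀ z ∈ N1, ∀ t ∈ ball (0 : E) τ, s' z t = φ.symm (φ (f z) + MB z (β z t)) := by
    intro z hz t ht'
    by_cases hzA : z ∈ WA
    · have hzAN : z ∈ WA ⊓ N := ⟨hzA, hN1N hz⟩
      have e1 : α z t ∈ ball (0 : E) δ := by
        rw [mem_ball_zero_iff]
        exact (hαb z hzA t ht').2
      obtain ⟨e2, e3⟩ := hφs z hzAN _ e1
      rw [hsA z hzA, hαβ z hzAN t ht', ← e3, φ.left_inv e2]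
    · rw [hs']; exact if_neg hzA
  have hball : IsOpen (ball (0 : E) τ) := isOpen_ball
  have h0τ : (0 : E) ∈ ball (0 : E) τ := mem_ball_self hτ
  refine ⟨WA ⊔ N1, τ, s', ?_, ?_, ?_⟩
  · rintro z (hz | hz)
    · exact Or.inl (hAWA hz)
    · exact Or.inr hz
  · rintro z (hz | hz)
    · exact hWU (hWAW0 hz)
    · exact hN1U (subset_closure hz)
  · -- holomorphy on both parts
    have hol1 : HolOn2 E s' (WA : Set R) (ball (0 : E) τ) := by
      have e1 := hol2_comp hspray.hol hα (fun z hz t ht' => by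
        rw [mem_ball_zero_iff]
        exact (hαb z hz t ht').2)
      refine MDifferentiableOn.congr e1 ?_
      rintro ⟨z, t⟩ ⟨hz, _⟩
      exact hsA z hz t
    have hol2 : HolOn2 E s' (N1 : Set R) (ball (0 : E) τ) := by
      have e1 : MDifferentiableOn ((modelWithCornersSelf ℂ ℂ).prod (modelWithCornersSelf ℂ E))
          (modelWithCornersSelf ℂ E) (fun q : R × E => φ (f q.1) + MB q.1 (β q.1 q.2))
          ((N1 : Set R) ×ˢ ball (0 : E) τ) := by
        have d1 : MDifferentiableOn ((modelWithCornersSelf ℂ ℂ).prod (modelWithCornersSelf ℂ E))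
            (modelWithCornersSelf ℂ E) (fun q : R × E => φ (f q.1))
            ((N1 : Set R) ×ˢ ball (0 : E) τ) := by
          have c1 : HolOn E (fun z => φ (f z)) (N1 : Set R) :=
            holOn_chart_comp hφ (holOn_mono hf (subset_closure.trans hN1U))
              (fun z hz => hN1φ z (subset_closure hz))
          exact MDifferentiableOn.comp (g := fun z => φ (f z)) (f := fun q : R × E => q.1) c1
            mdifferentiable_fst.mdifferentiableOn (fun q hq => hq.1)
        have d2 : MDifferentiableOn ((modelWithCornersSelf ℂ ℂ).prod (modelWithCornersSelf ℂ E))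
            (modelWithCornersSelf ℂ (E →L[ℂ] E)) (fun q : R × E => MB q.1)
            ((N1 : Set R) ×ˢ ball (0 : E) τ) :=
          MDifferentiableOn.comp (g := MB) (f := fun q : R × E => q.1)
            (MDifferentiableOn.mono hMB (fun z hz => hN1' z hz))
            mdifferentiable_fst.mdifferentiableOn (fun q hq => hq.1)
        have d3 : MDifferentiableOn ((modelWithCornersSelf ℂ ℂ).prod (modelWithCornersSelf ℂ E))
            (modelWithCornersSelf ℂ E) (fun q : R × E => β q.1 q.2)
            ((N1 : Set R) ×ˢ ball (0 : E) τ) :=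
          MDifferentiableOn.mono hβ (prod_mono (fun z hz => hN1' z hz) subset_rfl)
        exact d1.add (d2.clm_apply d3)
      have e2 : MDifferentiableOn ((modelWithCornersSelf ℂ ℂ).prod (modelWithCornersSelf ℂ E))
          (modelWithCornersSelf ℂ E) (fun q : R × E => φ.symm (φ (f q.1) + MB q.1 (β q.1 q.2)))
          ((N1 : Set R) ×ˢ ball (0 : E) τ) :=
        MDifferentiableOn.comp
          ((contMDiffOn_symm_of_mem_maximalAtlas hφ).mdifferentiableOn (by simp)) e1
          (fun q hq => hin q.1 hq.1 q.2 hq.2)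
      refine MDifferentiableOn.congr e2 ?_
      rintro ⟨z, t⟩ ⟨hz, ht'⟩
      exact hsN z hz t ht'
    refine ⟨hτ, ?_, ?_, ?_⟩
    · rintro ⟨z, t⟩ ⟨hz, ht'⟩
      rcases hz with hz | hz
      · have hop : (WA : Set R) ×ˢ ball (0 : E) τ ∈ 𝓝 (z, t) :=
          (WA.isOpen.prod hball).mem_nhds ⟨hz, ht'⟩
        exact ((hol1 (z, t) ⟨hz, ht'⟩).mdifferentiableAt hop).mdifferentiableWithinAt
      · have hop : (N1 : Set R) ×ˢ ball (0 : E) τ ∈ 𝓝 (z, t) :=
          (N1.isOpen.prod hball).mem_nhds ⟨hz, ht'⟩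
        exact ((hol2 (z, t) ⟨hz, ht'⟩).mdifferentiableAt hop).mdifferentiableWithinAt
    · intro z hz
      rcases hz with hz | hz
      · rw [hsA z hz, (hα0 z hz).1]
        exact hspray.zero z hz
      · rw [hsN z hz 0 h0τ, (hβ0 z (hN1' z hz)).1, map_zero, add_zero,
          φ.left_inv (hN1φ z (subset_closure hz))]
    · intro z hz
      rcases hz with hz | hz
      · obtain ⟨ψ, hψ, hfψ, hu⟩ := hspray.inv z hz
        refine ⟨ψ, hψ, hfψ, ?_⟩
        have e0 : (fun w => ψ (s' z w)) = fun w => ψ (s z (α z w)) := by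
          funext w; rw [hsA z hz]
        have hαd : DifferentiableAt ℂ (α z) 0 :=
          (hol2_slice hα hz).differentiableAt (hball.mem_nhds h0τ)
        have hsd : DifferentiableAt ℂ (fun w => ψ (s z w)) (α z 0) := by
          rw [(hα0 z hz).1]
          have c1 : MDifferentiableAt (modelWithCornersSelf ℂ E) (modelWithCornersSelf ℂ E)
              (s z) (0 : E) := by
            have c2 : MDifferentiableOn (modelWithCornersSelf ℂ E)
                ((modelWithCornersSelf ℂ ℂ).prod (modelWithCornersSelf ℂ E))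
                (fun w : E => (z, w)) (ball (0 : E) δ) :=
              (mdifferentiableOn_const).prodMk mdifferentiableOn_id
            have c3 := hspray.hol.comp c2 (fun w hw => ⟨hz, hw⟩)
            exact (c3 0 (mem_ball_self hspray.pos)).mdifferentiableAt
              (isOpen_ball.mem_nhds (mem_ball_self hspray.pos))
          have c4 : MDifferentiableAt (modelWithCornersSelf ℂ E) (modelWithCornersSelf ℂ E)
              ψ (s z 0) := by
            rw [hspray.zero z hz]
            exact (((contMDiffOn_of_mem_maximalAtlas hψ).mdifferentiableOn (by simp)) _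
              hfψ).mdifferentiableAt (ψ.open_source.mem_nhds hfψ)
          exact mdifferentiableAt_iff_differentiableAt.1 (c4.comp (0 : E) c1)
        have e1 : fderiv ℂ (fun w => ψ (s z (α z w))) 0 =
            (fderiv ℂ (fun w => ψ (s z w)) (α z 0)).comp (fderiv ℂ (α z) 0) :=
          fderiv_comp (0 : E) hsd hαd
        rw [e0, e1, (hα0 z hz).1, (hα0 z hz).2]
        exact hu
      · refine ⟨φ, hφ, hN1φ z (subset_closure hz), ?_⟩
        have e0 : (fun w => φ (s' z w)) =ᶠ[𝓝 0] fun w => φ (f z) + MB z (β z w) := by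
          filter_upwards [hball.mem_nhds h0τ] with w hw
          rw [hsN z hz w hw, φ.right_inv (hin z hz w hw)]
        have hβd : DifferentiableAt ℂ (β z) 0 :=
          (hol2_slice hβ (hN1' z hz)).differentiableAt (hball.mem_nhds h0τ)
        have e1 : HasFDerivAt (fun w => φ (f z) + MB z (β z w))
            ((MB z).comp (fderiv ℂ (β z) 0)) 0 :=
          ((MB z).hasFDerivAt.comp (0 : E) hβd.hasFDerivAt).const_add _
        rw [e0.fderiv_eq, e1.fderiv, (hβ0 z (hN1' z hz)).2]
        exact (hMBb z (hN1' z hz)).2.1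

end Pool.Agent.W_4d259d_h41
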