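import Pool.Agent.W_4d259d_h41.SpStep

/-!
# MP_4d259d_ag, block FR: outputs `SprayThm`, `TransThm`

Proof of `spray_thm`.  For `z0 ∈ A` let `φ` be the chart of `X` at `f z0` and
`O = U ∩ f⁻¹(φ.source)` (a neighbourhood of `z0`); `exists_bump` gives `e, N1, N, B`.  Finitely many
`B_1, .., B_m` cover `A`.  By induction on `k` there is a spray along `f` over an open
`W ⊇ B_1 ∪ .. ∪ B_k`, `W ≤ U`: `k = 0`: `W = ⊥`; step: `spray_step`.
`trans_thm`: `spray_thm` for `A = closure WA`, then `trans_of_spray`.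
-/

noncomputable section

set_option linter.unusedSectionVars false

namespace Pool.Agent.W_4d259d_h41

open Set Filter Topology Manifold Metric TopologicalSpace
open scoped ContDiff
open Pool.Agent.W_4d259d_h46.Defs Pool.Agent.W_4d259d_h46 Pool.Agent.W_4d259d_h44

variable (R : Type) [TopologicalSpace R] [T2Space R] [ChartedSpace ℂ R]
  [IsManifold (modelWithCornersSelf ℂ ℂ) ω R] [GoodSurface R]
variable (E : Type) [NormedAddCommGroup E] [NormedSpace ℂ E] [FiniteDimensional ℂ E]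
variable (X : Type) [MetricSpace X] [ChartedSpace E X] [IsManifold (modelWithCornersSelf ℂ E) ω X]

theorem spray_thm : SprayThm R E X := by
  classical
  intro A hA U hAU f hf
  -- bumps around the points of `A`
  have hb : ∀ z0 : R, z0 ∈ A → ∃ (B : Set R), IsCompact B ∧ z0 ∈ interior B ∧
      ∀ (A' : Set R), IsCompact A' → ∀ (W0 : Opens R), A' ⊆ W0 → W0 ≤ U → ∀ (δ0 : ℝ)
        (s0 : R → E → X), IsSpray W0 f δ0 s0 →
        ∃ (W' : Opens R) (δ' : ℝ) (s' : R → E → X), A' ∪ B ⊆ W' ∧ W' ≤ U ∧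
          IsSpray W' f δ' s' := by
    intro z0 hz0
    have hz0U : z0 ∈ U := hAU hz0
    let φ := chartAt E (f z0)
    have hφ : φ ∈ XChart E X := IsManifold.chart_mem_maximalAtlas (f z0)
    have hcont : ContinuousAt f z0 :=
      hf.continuousOn.continuousAt (U.isOpen.mem_nhds hz0U)
    have hO : (U : Set R) ∩ f ⁻¹' φ.source ∈ 𝓝 z0 :=
      inter_mem (U.isOpen.mem_nhds hz0U)
        (hcont (φ.open_source.mem_nhds (mem_chart_source E (f z0))))
    obtain ⟨e, he, N1, N, B, hB, hz0B, hBN1, h1, h2, h3⟩ := exists_bump hO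
    refine ⟨B, hB, hz0B, ?_⟩
    intro A' hA' W0 hAW hWU δ0 s0 hs
    obtain ⟨W', δ', s', hW1, hW2, hs'⟩ := spray_step hf hA' hAW hWU hs he h1 h2
      (h3.trans inter_subset_left) hφ (fun z hz => (h3 hz).2)
    exact ⟨W', δ', s', (union_subset_union_right _ hBN1).trans hW1, hW2, hs'⟩
  choose! B hBc hBi hBs using hb
  obtain ⟨t, htA, hAt⟩ := hA.elim_nhds_subcover (fun z => interior (B z))
    (fun z hz => isOpen_interior.mem_nhds (hBi z hz))
  have hind : ∀ t' : Finset R, (∀ z ∈ t', z ∈ A) → ∃ (W : Opens R) (δ : ℝ) (s : R → E → X),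
      (⋃ z ∈ t', B z) ⊆ W ∧ W ≤ U ∧ IsSpray W f δ s := by
    intro t'
    induction t' using Finset.induction_on with
    | empty =>
      intro _
      refine ⟨⊥, 1, fun z _ => f z, by simp, bot_le, one_pos, ?_, ?_, ?_⟩
      · intro q hq
        exact (hq.1 : q.1 ∈ (⊥ : Opens R)).elim
      · intro z hz
        exact hz.elim
      · intro z hz
        exact hz.elim
    | insert z0 t' hz0 ih =>
      intro ht'
      obtain ⟨W, δ, s, h1, h2, h3⟩ := ih fun z hz => ht' z (Finset.mem_insert_of_mem hz)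
      obtain ⟨W', δ', s', h4, h5, h6⟩ := hBs z0 (ht' z0 (Finset.mem_insert_self _ _))
        (⋃ z ∈ t', B z) (t'.isCompact_biUnion fun z hz =>
          hBc z (ht' z (Finset.mem_insert_of_mem hz))) W h1 h2 δ s h3
      refine ⟨W', δ', s', ?_, h5, h6⟩
      rw [Finset.set_biUnion_insert]
      exact (union_comm _ _).subset.trans h4
  obtain ⟨W, δ, s, h1, h2, h3⟩ := hind t htA
  refine ⟨W, δ, s, ?_, h2, h3⟩
  intro z hz
  obtain ⟨z', hz', hz2⟩ := mem_iUnion₂.1 (hAt hz)
  exact h1 (mem_iUnion₂.2 ⟨z', hz', interior_subset hz2⟩)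

theorem trans_thm : TransThm R E X := by
  intro U WA N1 N f hf hWA hWAU e he h1 h2 φ hφ hfφ
  obtain ⟨W, δ, s, hW1, hW2, hs⟩ := spray_thm R E X (closure (WA : Set R)) hWA U hWAU f hf
  exact trans_of_spray (hf.mono hW2) hs WA N1 N hWA hW1 he h1 h2 hφ hfφ

end Pool.Agent.W_4d259d_h41
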