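import Pool.Agent.W_4d259d_h41.FrFrame
import Pool.Agent.W_4d259d_h41.SpA

/-!
# MP_4d259d_ag, block FR: transition data from a spray (sections 8, 9; used in 4 and 9)

Proof.  `C' = closure WA ∩ closure N`.  `sp_chart` for `C'` gives `U0 ⊇ C'`, `δ1`, `M`,
`θ z w = φ (s0 z w)`, `g z = fderiv (θ z) 0` holomorphic and invertible on `U0`.  `frame` gives
`MA`, `MB`, `C`.  Put `s z α = s0 z (MA z α)` on `WA`, `δ = δ1 / (C + 1)` small (`‖MA z α‖ < δ1 ≤ δ0`
for `‖α‖ < δ`); `s` is a spray over `WA` along `f`: holomorphic (`hol2_comp`, `holOn_clm_apply`),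
`s z 0 = f z`, derivative `= fderiv (φ' ∘ s0 z) 0 ∘ MA z` invertible (`sp_unit`).  Closeness: `sp_close`
for the compact `closure WA ⊆ W0`.  `ξ z α = (MB z)⁻¹ (θ z (MA z α) - θ z 0) - α` on `O = WA ⊓ N ⊆ U0`:
holomorphic, bounded by `C (2 M) + δ`, `ξ z 0 = 0`, `fderiv (ξ z) 0 = (MB z)⁻¹ g z MA z - 1 = 0`, and
`φ (s z α) = θ z (MA z α) = φ (f z) + MB z (α + ξ z α)`.
-/

noncomputable section

set_option linter.unusedSectionVars false

namespace Pool.Agent.W_4d259d_h41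

open Set Filter Topology Manifold Metric TopologicalSpace
open scoped ContDiff
open Pool.Agent.W_4d259d_h46.Defs Pool.Agent.W_4d259d_h46 Pool.Agent.W_4d259d_h44

variable {R : Type*} [TopologicalSpace R] [T2Space R] [ChartedSpace ℂ R]
  [IsManifold (modelWithCornersSelf ℂ ℂ) ω R] [GoodSurface R]
variable {E : Type*} [NormedAddCommGroup E] [NormedSpace ℂ E] [FiniteDimensional ℂ E]
variable {X : Type*} [MetricSpace X] [ChartedSpace E X] [IsManifold (modelWithCornersSelf ℂ E) ω X]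

theorem trans_of_spray {W0 : Opens R} {f : R → X} (hf : HolOn E f W0) {δ0 : ℝ} {s0 : R → E → X}
    (hs : IsSpray W0 f δ0 s0) (WA N1 N : Opens R) (hWA : IsCompact (closure (WA : Set R)))
    (hWA0 : closure (WA : Set R) ⊆ W0) {e : OpenPartialHomeomorph R ℂ} (he : e ∈ DChart R)
    (h1 : closure (N1 : Set R) ⊆ N) (h2 : closure (N : Set R) ⊆ unitOf e)
    {φ : OpenPartialHomeomorph X E} (hφ : φ ∈ XChart E X)
    (hfφ : ∀ z ∈ closure (WA : Set R) ∩ closure (N : Set R), f z ∈ φ.source) :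
    ∃ (δ C : ℝ) (s : R → E → X) (MB : R → E →L[ℂ] E) (ξ : R → E → E),
      IsSpray WA f δ s ∧
      (∀ ε > 0, ∃ δ' > 0, ∀ z ∈ WA, ∀ α : E, ‖α‖ < δ' → dist (s z α) (f z) < ε) ∧
      HolOn (E →L[ℂ] E) MB (N1 ⊔ (WA ⊓ N) : Opens R) ∧
      (∀ z ∈ (N1 ⊔ (WA ⊓ N) : Opens R), ‖MB z‖ ≤ C ∧ IsUnit (MB z) ∧ ‖Ring.inverse (MB z)‖ ≤ C) ∧
      HolOn2 E ξ (WA ⊓ N : Opens R) (ball 0 δ) ∧
      (∀ z ∈ WA ⊓ N, ∀ α ∈ ball (0 : E) δ, ‖ξ z α‖ ≤ C) ∧
      (∀ z ∈ WA ⊓ N, ξ z 0 = 0 ∧ fderiv ℂ (ξ z) 0 = 0) ∧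
      (∀ z ∈ WA ⊓ N, ∀ α ∈ ball (0 : E) δ,
        s z α ∈ φ.source ∧ φ (s z α) = φ (f z) + MB z (α + ξ z α)) := by
  have hEc : CompleteSpace E := FiniteDimensional.complete ℂ E
  have hWA' : (WA : Set R) ⊆ W0 := subset_closure.trans hWA0
  set C' : Set R := closure (WA : Set R) ∩ closure (N : Set R) with hC'
  have hC'c : IsCompact C' := hWA.inter_right isClosed_closure
  have hOC' : ∀ z ∈ WA ⊓ N, z ∈ C' := fun z hz => ⟨subset_closure hz.1, subset_closure hz.2⟩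
  obtain ⟨U0, δ1, M, hCU, hUW, hδ1, hδ10, hθM, hθ, hg, hgu⟩ :=
    sp_chart hs hφ hC'c (fun z hz => hWA0 hz.1) hfφ
  obtain ⟨MA, MB, C, hMA, hMB, hMAb, hMBb, hgM⟩ := frame he N1 N WA h1 h2 hWA hCU hg hgu
  have hOU : ∀ z ∈ WA ⊓ N, z ∈ U0 := fun z hz => hCU (hOC' z hz)
  have hOB : ∀ z ∈ WA ⊓ N, z ∈ (N1 ⊔ (WA ⊓ N) : Opens R) := fun z hz => Or.inr hz
  set c : ℝ := |C| + 1 with hc
  have hc0 : 0 < c := by positivity
  have hMAc : ∀ z ∈ WA, ∀ α : E, ‖MA z α‖ ≤ c * ‖α‖ := by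
    intro z hz α
    refine ((MA z).le_opNorm α).trans (mul_le_mul_of_nonneg_right ?_ (norm_nonneg _))
    have h3 := (hMAb z hz).1
    have h4 := le_abs_self C
    rw [hc]
    linarith
  have hMAlt : ∀ r : ℝ, ∀ z ∈ WA, ∀ α : E, ‖α‖ < r / c → ‖MA z α‖ < r := by
    intro r z hz α hα
    refine (hMAc z hz α).trans_lt ?_
    rw [lt_div_iff₀ hc0] at hα
    linarith [mul_comm c ‖α‖]
  set δ : ℝ := δ1 / c with hδ
  have hδ0 : 0 < δ := div_pos hδ1 hc0
  have hMAδ : ∀ z ∈ WA, ∀ α ∈ ball (0 : E) δ, MA z α ∈ ball (0 : E) δ1 := by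
    intro z hz α hα
    rw [mem_ball_zero_iff] at hα ⊢
    exact hMAlt δ1 z hz α hα
  -- holomorphy of `(z, α) ↦ MA z α`
  have hMA2 : MDifferentiableOn ((modelWithCornersSelf ℂ ℂ).prod (modelWithCornersSelf ℂ E))
      (modelWithCornersSelf ℂ E) (fun q : R × E => MA q.1 q.2)
      ((WA : Set R) ×ˢ ball (0 : E) δ) := by
    refine MDifferentiableOn.clm_apply (g := fun q : R × E => MA q.1) (f := fun q : R × E => q.2)
      ?_ ?_
    · exact MDifferentiableOn.comp (g := MA) (f := fun q : R × E => q.1) hMA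
        mdifferentiable_fst.mdifferentiableOn (fun q hq => hq.1)
    · exact mdifferentiable_snd.mdifferentiableOn
  -- differentiability of the spray in a chart
  have hdiff : ∀ z ∈ W0, ∀ ψ ∈ XChart E X, f z ∈ ψ.source →
      DifferentiableAt ℂ (fun w => ψ (s0 z w)) 0 := by
    intro z hz ψ hψ hzψ
    obtain ⟨U1, δ2, M2, k1, k2, k3, k4, k5, k6, k7, k8⟩ := sp_chart hs hψ
      (isCompact_singleton (x := z)) (singleton_subset_iff.2 hz) (fun z' hz' => by
        rw [mem_singleton_iff] at hz'; rw [hz']; exact hzψ)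
    have h3 := hol2_slice k6 (k1 rfl)
    exact h3.differentiableAt (isOpen_ball.mem_nhds (mem_ball_self k3))
  refine ⟨δ, |C| + |C| * (2 * |M|) + δ, fun z α => s0 z (MA z α), MB,
    fun z α => Ring.inverse (MB z) (φ (s0 z (MA z α)) - φ (s0 z 0)) - α, ⟨hδ0, ?_, ?_, ?_⟩, ?_, hMB,
    ?_, ?_, ?_, ?_, ?_⟩
  · -- hol
    refine hol2_comp (U := WA) (V := ball (0 : E) δ0) (T := ball (0 : E) δ)
      (α := fun z t => MA z t) ?_ hMA2 ?_
    · exact MDifferentiableOn.mono hs.hol (prod_mono hWA' subset_rfl)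
    · exact fun z hz t ht => ball_subset_ball hδ10 (hMAδ z hz t ht)
  · -- zero
    intro z hz
    show s0 z (MA z 0) = f z
    rw [map_zero]
    exact hs.zero z (hWA' hz)
  · -- inv
    intro z hz
    obtain ⟨ψ, hψ, hzψ, hu⟩ := hs.inv z (hWA' hz)
    refine ⟨ψ, hψ, hzψ, ?_⟩
    have h3 := (hdiff z (hWA' hz) ψ hψ hzψ).hasFDerivAt
    have h4 : HasFDerivAt (fun w => ψ (s0 z w)) (fderiv ℂ (fun w => ψ (s0 z w)) 0)
        ((MA z : E → E) 0) := by
      rw [map_zero]; exact h3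
    have h5 := HasFDerivAt.comp (0 : E) h4 (MA z).hasFDerivAt
    have h6 : fderiv ℂ (fun w => ψ (s0 z (MA z w))) 0 =
        fderiv ℂ (fun w => ψ (s0 z w)) 0 * MA z := h5.fderiv
    rw [h6]
    exact hu.mul (hMAb z hz).2.1
  · -- close
    intro ε hε
    obtain ⟨δ2, hδ2, hcl⟩ := sp_close hs hWA hWA0 ε hε
    exact ⟨δ2 / c, div_pos hδ2 hc0, fun z hz α hα =>
      hcl z (subset_closure hz) _ (hMAlt δ2 z hz α hα)⟩
  · -- bounds of MB
    intro z hz
    obtain ⟨b1, b2, b3⟩ := hMBb z hz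
    have h3 : C ≤ |C| + |C| * (2 * |M|) + δ := by
      have := le_abs_self C
      have : 0 ≤ |C| * (2 * |M|) := by positivity
      linarith
    exact ⟨b1.trans h3, b2, b3.trans h3⟩
  · -- xi holomorphic
    have k1 : MDifferentiableOn ((modelWithCornersSelf ℂ ℂ).prod (modelWithCornersSelf ℂ E))
        (modelWithCornersSelf ℂ E) (fun q : R × E => φ (s0 q.1 (MA q.1 q.2)))
        (((WA ⊓ N : Opens R) : Set R) ×ˢ ball (0 : E) δ) := by
      refine hol2_comp (X := E) (U := WA ⊓ N) (V := ball (0 : E) δ1) (T := ball (0 : E) δ)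
        (s := fun z w => φ (s0 z w)) (α := fun z t => MA z t) ?_ ?_ ?_
      · exact MDifferentiableOn.mono hθ (prod_mono (fun z hz => hOU z hz) subset_rfl)
      · exact hMA2.mono (prod_mono (fun z hz => hz.1) subset_rfl)
      · exact fun z hz t ht => hMAδ z hz.1 t ht
    have k2 : MDifferentiableOn ((modelWithCornersSelf ℂ ℂ).prod (modelWithCornersSelf ℂ E))
        (modelWithCornersSelf ℂ E) (fun q : R × E => φ (s0 q.1 0))
        (((WA ⊓ N : Opens R) : Set R) ×ˢ ball (0 : E) δ) := by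
      refine hol2_comp (X := E) (U := WA ⊓ N) (V := ball (0 : E) δ1) (T := ball (0 : E) δ)
        (s := fun z w => φ (s0 z w)) (α := fun _ _ => 0) ?_ ?_ ?_
      · exact MDifferentiableOn.mono hθ (prod_mono (fun z hz => hOU z hz) subset_rfl)
      · exact mdifferentiableOn_const
      · exact fun z hz t ht => mem_ball_self hδ1
    have k3 : HolOn (E →L[ℂ] E) (fun z => Ring.inverse (MB z)) (N1 ⊔ (WA ⊓ N) : Opens R) :=
      holOn_opInv hMB (fun z hz => (hMBb z hz).2.1)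
    refine MDifferentiableOn.sub (MDifferentiableOn.clm_apply
      (g := fun q : R × E => Ring.inverse (MB q.1))
      (f := fun q : R × E => φ (s0 q.1 (MA q.1 q.2)) - φ (s0 q.1 0)) ?_ (k1.sub k2))
      mdifferentiable_snd.mdifferentiableOn
    exact MDifferentiableOn.comp (g := fun z => Ring.inverse (MB z)) (f := fun q : R × E => q.1) k3
      mdifferentiable_fst.mdifferentiableOn (fun q hq => hOB q.1 hq.1)
  · -- xi bounded
    intro z hz α hα
    have b1 := (hθM z (hOU z hz) _ (hMAδ z hz.1 α hα)).2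
    have b2 := (hθM z (hOU z hz) 0 (mem_ball_self hδ1)).2
    have b3 := (hMBb z (hOB z hz)).2.2
    have b4 : ‖φ (s0 z (MA z α)) - φ (s0 z 0)‖ ≤ 2 * |M| := by
      refine (norm_sub_le _ _).trans ?_
      have := le_abs_self M
      linarith
    have b5 : ‖Ring.inverse (MB z) (φ (s0 z (MA z α)) - φ (s0 z 0))‖ ≤ |C| * (2 * |M|) :=
      ((Ring.inverse (MB z)).le_opNorm _).trans
        (mul_le_mul (b3.trans (le_abs_self C)) b4 (norm_nonneg _) (abs_nonneg _))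
    rw [mem_ball_zero_iff] at hα
    refine (norm_sub_le _ _).trans ?_
    have := abs_nonneg C
    linarith
  · -- jets of xi
    intro z hz
    refine ⟨by simp, ?_⟩
    have h3 : DifferentiableAt ℂ (fun w => φ (s0 z w)) 0 :=
      hdiff z (hWA' hz.1) φ hφ (hfφ z (hOC' z hz))
    have h4 : HasFDerivAt (fun w => φ (s0 z w)) (fderiv ℂ (fun w => φ (s0 z w)) 0)
        ((MA z : E → E) 0) := by
      rw [map_zero]; exact h3.hasFDerivAt
    have h5 : HasFDerivAt (fun α => φ (s0 z (MA z α)))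
        (fderiv ℂ (fun w => φ (s0 z w)) 0 * MA z) (0 : E) :=
      HasFDerivAt.comp (0 : E) h4 (MA z).hasFDerivAt
    have h6 : HasFDerivAt (fun α => Ring.inverse (MB z) (φ (s0 z (MA z α)) - φ (s0 z 0)))
        (Ring.inverse (MB z) * (fderiv ℂ (fun w => φ (s0 z w)) 0 * MA z)) (0 : E) :=
      HasFDerivAt.comp (0 : E) ((Ring.inverse (MB z)).hasFDerivAt)
        (h5.sub_const (φ (s0 z 0)))
    have h7 := h6.sub (hasFDerivAt_id (0 : E))
    have h8 : Ring.inverse (MB z) * (fderiv ℂ (fun w => φ (s0 z w)) 0 * MA z) -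
        ContinuousLinearMap.id ℂ E = 0 := by
      rw [hgM z hz, Ring.inverse_mul_cancel _ (hMBb z (hOB z hz)).2.1]
      exact sub_self _
    rw [h8] at h7
    exact h7.fderiv
  · -- the identity
    intro z hz α hα
    refine ⟨(hθM z (hOU z hz) _ (hMAδ z hz.1 α hα)).1, ?_⟩
    have h3 : MB z (Ring.inverse (MB z) (φ (s0 z (MA z α)) - φ (s0 z 0))) =
        φ (s0 z (MA z α)) - φ (s0 z 0) := by
      have h4 : (MB z * Ring.inverse (MB z)) (φ (s0 z (MA z α)) - φ (s0 z 0)) =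
          φ (s0 z (MA z α)) - φ (s0 z 0) := by
        rw [Ring.mul_inverse_cancel _ (hMBb z (hOB z hz)).2.1]
        rfl
      exact h4
    have h5 : φ (s0 z 0) = φ (f z) := by rw [hs.zero z (hWA' hz.1)]
    show φ (s0 z (MA z α)) = φ (f z) + MB z (α + (Ring.inverse (MB z)
      (φ (s0 z (MA z α)) - φ (s0 z 0)) - α))
    rw [add_sub_cancel, h3, h5]
    abel

end Pool.Agent.W_4d259d_h41
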